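import Pool.Agent.H37.SB.Targets

/-!
# Barrier for the popular difference exponent of squares, row AVG: averaging over the slices
-/

set_option autoImplicit false

namespace Pool.Agent.H11.SB

open Finset Pool.Agent.H36Sq Pool.Agent.H37.SB

theorem pf_AVG (h1 : T_AUT) (h2 : T_BAL) : T_AVG := by
  intro α ι _ _ _ _ R hR
  have hK : 2 ≤ 2 ^ Fintype.card ι := by
    have h : 0 < Fintype.card ι := Fintype.card_pos
    calc 2 = 2 ^ 1 := (pow_one 2).symm
      _ ≤ 2 ^ Fintype.card ι := Nat.pow_le_pow_right (by norm_num) h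
  obtain ⟨g, hg⟩ := h1 ι
  obtain ⟨f0, hf0⟩ := h2 α R (2 ^ Fintype.card ι - 1) (by omega) (by omega)
  refine ⟨fun r => g (f0 r), ?_⟩
  intro f s hs
  have e1 : ∑ r ∈ R, f (g (f0 r) s) =
      ∑ u, (R.filter (fun r => f0 r = u)).card * f (g u s) := by
    rw [← Finset.sum_fiberwise R f0 (fun r => f (g (f0 r) s))]
    refine Finset.sum_congr rfl fun u _ => ?_
    rw [Finset.sum_congr rfl (g := fun _ => f (g u s)) (fun r hr => by
      rw [(Finset.mem_filter.1 hr).2]), Finset.sum_const, smul_eq_mul]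
  have e2 : (2 ^ Fintype.card ι - 1) * ∑ r ∈ R, f (g (f0 r) s) ≤
      2 * R.card * ∑ u, f (g u s) := by
    rw [e1, Finset.mul_sum, Finset.mul_sum]
    refine Finset.sum_le_sum fun u _ => ?_
    rw [← mul_assoc]
    exact Nat.mul_le_mul_right _ (hf0 u)
  have hinj : Function.Injective fun u => g u s := by
    intro u u' huu
    have huu' : g u s = g u' s := huu
    have h0 : g u s ≠ 0 := by
      intro h
      exact hs ((g u).injective (h.trans (map_zero (g u)).symm))
    exact (hg s (g u s) hs h0).unique rfl huu'.symm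
  have e3 : ∑ u, f (g u s) ≤ ∑ s', f s' := by
    have h3 : ∑ u, f (g u s) = ∑ s' ∈ univ.image (fun u => g u s), f s' := by
      rw [Finset.sum_image (fun u _ u' _ h => hinj h)]
    rw [h3]
    exact Finset.sum_le_sum_of_subset (Finset.subset_univ _)
  have e4 : 2 ^ Fintype.card ι ≤ 2 * (2 ^ Fintype.card ι - 1) := by omega
  calc 2 ^ Fintype.card ι * ∑ r ∈ R, f (g (f0 r) s)
      ≤ 2 * (2 ^ Fintype.card ι - 1) * ∑ r ∈ R, f (g (f0 r) s) := Nat.mul_le_mul_right _ e4
    _ = 2 * ((2 ^ Fintype.card ι - 1) * ∑ r ∈ R, f (g (f0 r) s)) := by rw [mul_assoc]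
    _ ≤ 2 * (2 * R.card * ∑ u, f (g u s)) := Nat.mul_le_mul_left _ e2
    _ ≤ 2 * (2 * R.card * ∑ s', f s') := Nat.mul_le_mul_left _ (Nat.mul_le_mul_left _ e3)
    _ = 4 * R.card * ∑ s', f s' := by ring

end Pool.Agent.H11.SB
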