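import Pool.Agent.H63.SB.Targets
import Pool.Agent.H63.SB.Tk

/-!
# MP_bd4439_gt, modules W2 and W3: common part of the cut lemmas
-/

namespace Pool.Agent.H11.SB

open Set Filter Topology Pool.Agent.H63.SB
open scoped RealInnerProductSpace

section Coord

variable {E : Type*} [NormedAddCommGroup E] [InnerProductSpace ℝ E]

/-- The Gram determinant. -/
noncomputable def gram (a b : E) : ℝ := ⟪a, a⟫ * ⟪b, b⟫ - ⟪a, b⟫ * ⟪a, b⟫

theorem gram_ne_zero {a b : E} (h : LinearIndependent ℝ ![a, b]) : gram a b ≠ 0 := by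
  intro h0
  have ha : a ≠ 0 := h.ne_zero 0
  have h1 : ⟪⟪a, a⟫ • b - ⟪a, b⟫ • a, ⟪a, a⟫ • b - ⟪a, b⟫ • a⟫ = ⟪a, a⟫ * gram a b := by
    rw [gram, inner_sub_left, inner_sub_right, inner_sub_right]
    simp only [real_inner_smul_left, real_inner_smul_right]
    rw [real_inner_comm b a]
    ring
  rw [h0, mul_zero, inner_self_eq_zero] at h1
  have h2 : (-⟪a, b⟫) • a + ⟪a, a⟫ • b = 0 := by
    rw [← h1]; module
  have h3 := (LinearIndependent.pair_iff.1 h _ _ h2).2
  exact ha (inner_self_eq_zero.1 h3)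

theorem li_of_gram {a b : E} (h : gram a b ≠ 0) : LinearIndependent ℝ ![a, b] := by
  rw [LinearIndependent.pair_iff]
  intro s t hst
  have e1 : s * ⟪a, a⟫ + t * ⟪a, b⟫ = 0 := by
    have := congrArg (fun z => ⟪a, z⟫) hst
    simpa [inner_add_right, real_inner_smul_right] using this
  have e2 : s * ⟪a, b⟫ + t * ⟪b, b⟫ = 0 := by
    have := congrArg (fun z => ⟪b, z⟫) hst
    simpa [inner_add_right, real_inner_smul_right, real_inner_comm b a] using this
  constructor
  · have : s * gram a b = 0 := by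
      rw [gram]
      linear_combination ⟪b, b⟫ * e1 - ⟪a, b⟫ * e2
    exact (mul_eq_zero.1 this).resolve_right h
  · have : t * gram a b = 0 := by
      rw [gram]
      linear_combination ⟪a, a⟫ * e2 - ⟪a, b⟫ * e1
    exact (mul_eq_zero.1 this).resolve_right h

theorem coord_fst {a b v : E} {s t : ℝ} (hv : v = s • a + t • b) (h : gram a b ≠ 0) :
    s = (⟪a, v⟫ * ⟪b, b⟫ - ⟪b, v⟫ * ⟪a, b⟫) / gram a b := by
  rw [eq_div_iff h, hv, gram]
  simp only [inner_add_right, real_inner_smul_right]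
  rw [real_inner_comm a b]
  ring

theorem coord_snd {a b v : E} {s t : ℝ} (hv : v = s • a + t • b) (h : gram a b ≠ 0) :
    t = (⟪b, v⟫ * ⟪a, a⟫ - ⟪a, v⟫ * ⟪a, b⟫) / gram a b := by
  rw [eq_div_iff h, hv, gram]
  simp only [inner_add_right, real_inner_smul_right]
  rw [real_inner_comm a b]
  ring

theorem tendsto_gram {ι : Type*} {F : Filter ι} {a b : ι → E} {a₀ b₀ : E}
    (ha : Tendsto a F (𝓝 a₀)) (hb : Tendsto b F (𝓝 b₀)) :
    Tendsto (fun n => gram (a n) (b n)) F (𝓝 (gram a₀ b₀)) :=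
  ((ha.inner ha).mul (hb.inner hb)).sub ((ha.inner hb).mul (ha.inner hb))

theorem tendsto_coord {ι : Type*} {F : Filter ι} {a b v : ι → E} {s t : ι → ℝ} {a₀ b₀ : E}
    {s₀ t₀ : ℝ} (ha : Tendsto a F (𝓝 a₀)) (hb : Tendsto b F (𝓝 b₀))
    (hv : Tendsto v F (𝓝 (s₀ • a₀ + t₀ • b₀))) (hli : LinearIndependent ℝ ![a₀, b₀])
    (h : ∀ᶠ n in F, v n = s n • a n + t n • b n) :
    Tendsto s F (𝓝 s₀) ∧ Tendsto t F (𝓝 t₀) := by
  have hg := gram_ne_zero hli
  have hgt := tendsto_gram ha hb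
  have hne := hgt.eventually_ne hg
  constructor
  · have h1 := (((ha.inner hv).mul (hb.inner hb)).sub ((hb.inner hv).mul (ha.inner hb))).div hgt hg
    rw [← coord_fst rfl hg] at h1
    refine h1.congr' ?_
    filter_upwards [h, hne] with n hn hn'
    exact (coord_fst hn hn').symm
  · have h1 := (((hb.inner hv).mul (ha.inner ha)).sub ((ha.inner hv).mul (ha.inner hb))).div hgt hg
    rw [← coord_snd rfl hg] at h1
    refine h1.congr' ?_
    filter_upwards [h, hne] with n hn hn'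
    exact (coord_snd hn hn').symm

theorem exists_coord {ι : Type*} {F : Filter ι} {a b v : ι → E}
    (h : ∀ᶠ n in F, v n ∈ Submodule.span ℝ {a n, b n}) :
    ∃ s t : ι → ℝ, ∀ᶠ n in F, v n = s n • a n + t n • b n := by
  have h1 : ∀ n, ∃ s t : ℝ, v n ∈ Submodule.span ℝ {a n, b n} → v n = s • a n + t • b n := by
    intro n
    by_cases hn : v n ∈ Submodule.span ℝ {a n, b n}
    · obtain ⟨s, t, hst⟩ := Submodule.mem_span_pair.1 hn
      exact ⟨s, t, fun _ => hst.symm⟩
    · exact ⟨0, 0, fun h2 => absurd h2 hn⟩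
  choose s t hst using h1
  exact ⟨s, t, h.mono fun n hn => hst n hn⟩

end Coord

section Core

variable {E : Type} [NormedAddCommGroup E] [InnerProductSpace ℝ E] {M : Set E}

/-- The key computation: a positive multiple of `w + η e` is a direction. -/
theorem key_dir {w e ξ v : E} {η sv tv s t : ℝ} (hv : v = sv • w + tv • e)
    (hξ : ξ = s • w + t • e) (_hvM : v ∈ Dir M)
    (hF : ∀ τ : ℝ, 0 ≤ τ → v + τ • ξ ≠ 0 → v + τ • ξ ∈ Dir M)
    (hne : w + η • e ≠ 0)
    (h1 : (tv - η * sv) * (t - η * s) < 0) (h2 : 0 < (sv * t - tv * s) / (t - η * s)) :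
    w + η • e ∈ Dir M := by
  have hD : t - η * s ≠ 0 := by
    intro h0; rw [h0, mul_zero] at h1; exact lt_irrefl _ h1
  set τ : ℝ := -(tv - η * sv) / (t - η * s) with hτ
  have hτpos : 0 < τ := by
    rw [hτ]
    have : -(tv - η * sv) / (t - η * s) = -((tv - η * sv) * (t - η * s)) / (t - η * s) ^ 2 := by
      field_simp
    rw [this]
    exact div_pos (by linarith) (by positivity)
  have hval : v + τ • ξ = ((sv * t - tv * s) / (t - η * s)) • (w + η • e) := by
    rw [hv, hξ]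
    have e1 : sv + τ * s = (sv * t - tv * s) / (t - η * s) := by
      rw [hτ]; field_simp; ring
    have e2 : tv + τ * t = (sv * t - tv * s) / (t - η * s) * η := by
      rw [hτ]; field_simp; ring
    have : sv • w + tv • e + τ • (s • w + t • e) = (sv + τ * s) • w + (tv + τ * t) • e := by
      module
    rw [this, e1, e2]
    module
  have h3 := hF τ hτpos.le (by rw [hval]; exact smul_ne_zero h2.ne' hne)
  rw [hval] at h3
  exact (smul_mem_Dir h2).1 h3

variable {u e : E} {a b : ℝ} {w e' ξ : ℕ → E} {η : ℕ → ℝ}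

/-- The data of the cut lemmas. -/
structure CutData (M : Set E) (u e : E) (a b : ℝ) (w e' ξ : ℕ → E) (η : ℕ → ℝ) : Prop where
  li : LinearIndependent ℝ ![u, e]
  hw : Tendsto w atTop (𝓝 u)
  he : Tendsto e' atTop (𝓝 e)
  hη : ∀ j, 0 < η j
  hη0 : Tendsto η atTop (𝓝 0)
  hwM : ∀ j, w j ∈ Dir M
  hn : ∀ j, w j + η j • e' j ∉ Dir M
  hξS : ∀ᶠ j in atTop, ξ j ∈ Submodule.span ℝ {w j, e' j}
  hξ : Tendsto ξ atTop (𝓝 (a • u + b • e))
  hF : ∀ᶠ j in atTop, ∀ v ∈ Dir M, v ∈ Submodule.span ℝ {w j, e' j} → ∀ t : ℝ, 0 ≤ t →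
    v + t • ξ j ≠ 0 → v + t • ξ j ∈ Dir M
  hG : ∀ᶠ j in atTop, ξ j ≠ 0 → ξ j ∈ Dir M

theorem CutData.ne_zero (h : CutData M u e a b w e' ξ η) :
    ∀ᶠ j in atTop, w j + η j • e' j ≠ 0 := by
  have hu : u ≠ 0 := h.li.ne_zero 0
  have h1 : Tendsto (fun j => w j + η j • e' j) atTop (𝓝 (u + (0 : ℝ) • e)) :=
    h.hw.add (h.hη0.smul h.he)
  rw [zero_smul, add_zero] at h1
  exact h1.eventually_ne hu

theorem CutData.c1 (h : CutData M u e a b w e' ξ η) : b ≤ 0 := by
  by_contra hb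
  push Not at hb
  obtain ⟨s, t, hst⟩ := exists_coord h.hξS
  obtain ⟨hs, ht⟩ := tendsto_coord h.hw h.he h.hξ h.li hst
  have hD : Tendsto (fun j => t j - η j * s j) atTop (𝓝 (b - 0 * a)) := ht.sub (h.hη0.mul hs)
  rw [zero_mul, sub_zero] at hD
  obtain ⟨j, h1, h2, h3, h4, h5⟩ := (hst.and ((hD.eventually_const_lt hb).and
    ((ht.eventually_const_lt hb).and (h.hF.and h.ne_zero)))).exists
  refine h.hn j (key_dir (v := w j) (sv := 1) (tv := 0) (by simp) h1 (h.hwM j)
    (fun τ hτ hne => h4 (w j) (h.hwM j) (Submodule.subset_span (by simp)) τ hτ hne) h5 ?_ ?_)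
  · have := h.hη j
    have : 0 < η j * (t j - η j * s j) := by positivity
    linarith
  · have : (1 * t j - 0 * s j) = t j := by ring
    rw [this]
    positivity

theorem CutData.c2 (h : CutData M u e a b w e' ξ η) (hb : b = 0) (ha : 0 < a) {a'' b'' : ℝ}
    (hb'' : 0 < b'') {v : ℕ → E}
    (hv : ∀ᶠ j in atTop, v j ∈ Dir M ∧ v j ∈ Submodule.span ℝ {w j, e' j})
    (hvl : Tendsto v atTop (𝓝 (a'' • u + b'' • e))) : False := by
  obtain ⟨s, t, hst⟩ := exists_coord h.hξS
  obtain ⟨hs, ht⟩ := tendsto_coord h.hw h.he h.hξ h.li hst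
  obtain ⟨sv, tv, hstv⟩ := exists_coord (hv.mono fun j hj => hj.2)
  obtain ⟨hsv, htv⟩ := tendsto_coord h.hw h.he hvl h.li hstv
  have hDv : Tendsto (fun j => tv j - η j * sv j) atTop (𝓝 (b'' - 0 * a'')) :=
    htv.sub (h.hη0.mul hsv)
  rw [zero_mul, sub_zero] at hDv
  have hN : Tendsto (fun j => sv j * t j - tv j * s j) atTop (𝓝 (a'' * b - b'' * a)) :=
    (hsv.mul ht).sub (htv.mul hs)
  have hNneg : a'' * b - b'' * a < 0 := by
    rw [hb, mul_zero]
    have : 0 < b'' * a := by positivity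
    linarith
  obtain ⟨j, h1, h2, h3, h4, h5, h6, h7, h8, h9⟩ := (hst.and (hstv.and
    ((hDv.eventually_const_lt hb'').and ((hN.eventually_lt_const hNneg).and
    ((hs.eventually_const_lt ha).and (hv.and (h.hF.and (h.hG.and h.ne_zero)))))))).exists
  have hηj := h.hη j
  rcases lt_trichotomy (t j - η j * s j) 0 with hlt | heq | hgt
  · refine h.hn j (key_dir (v := v j) h2 h1 h6.1
      (fun τ hτ hne => h7 (v j) h6.1 h6.2 τ hτ hne) h9 ?_ ?_)
    · exact mul_neg_of_pos_of_neg h3 hlt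
    · exact div_pos_of_neg_of_neg h4 hlt
  · have h10 : ξ j = s j • (w j + η j • e' j) := by
      rw [h1]
      have : t j = η j * s j := by linarith
      rw [this]
      module
    have h11 : ξ j ≠ 0 := by
      rw [h10]; exact smul_ne_zero h5.ne' h9
    have h12 := h8 h11
    rw [h10] at h12
    exact h.hn j ((smul_mem_Dir h5).1 h12)
  · refine h.hn j (key_dir (v := w j) (sv := 1) (tv := 0) (by simp) h1 (h.hwM j)
      (fun τ hτ hne => h7 (w j) (h.hwM j) (Submodule.subset_span (by simp)) τ hτ hne) h9 ?_ ?_)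
    · have : 0 < η j * (t j - η j * s j) := by positivity
      linarith
    · have : (1 * t j - 0 * s j) = t j := by ring
      rw [this]
      have : 0 < t j := by
        have : 0 < η j * s j := by positivity
        linarith
      positivity

theorem CutData.c3 (h : CutData M u e a b w e' ξ η) (hb : b < 0) {δ : ℝ} (hδ : 0 < δ)
    (hδ' : b - δ * a < 0) {v : ℕ → E}
    (hv : ∀ᶠ j in atTop, v j ∈ Dir M ∧ v j ∈ Submodule.span ℝ {w j, e' j})
    (hvl : Tendsto v atTop (𝓝 (u + δ • e))) : False := by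
  obtain ⟨s, t, hst⟩ := exists_coord h.hξS
  obtain ⟨hs, ht⟩ := tendsto_coord h.hw h.he h.hξ h.li hst
  obtain ⟨sv, tv, hstv⟩ := exists_coord (hv.mono fun j hj => hj.2)
  have hvl' : Tendsto v atTop (𝓝 ((1 : ℝ) • u + δ • e)) := by rwa [one_smul]
  obtain ⟨hsv, htv⟩ := tendsto_coord h.hw h.he hvl' h.li hstv
  have hDv : Tendsto (fun j => tv j - η j * sv j) atTop (𝓝 (δ - 0 * 1)) :=
    htv.sub (h.hη0.mul hsv)
  rw [zero_mul, sub_zero] at hDv
  have hD : Tendsto (fun j => t j - η j * s j) atTop (𝓝 (b - 0 * a)) := ht.sub (h.hη0.mul hs)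
  rw [zero_mul, sub_zero] at hD
  have hN : Tendsto (fun j => sv j * t j - tv j * s j) atTop (𝓝 (1 * b - δ * a)) :=
    (hsv.mul ht).sub (htv.mul hs)
  rw [one_mul] at hN
  obtain ⟨j, h1, h2, h3, h4, h5, h6, h7, h9⟩ := (hst.and (hstv.and
    ((hDv.eventually_const_lt hδ).and ((hN.eventually_lt_const hδ').and
    ((hD.eventually_lt_const hb).and (hv.and (h.hF.and h.ne_zero))))))).exists
  refine h.hn j (key_dir (v := v j) h2 h1 h6.1
    (fun τ hτ hne => h7 (v j) h6.1 h6.2 τ hτ hne) h9 ?_ ?_)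
  · exact mul_neg_of_pos_of_neg h3 h5
  · exact div_pos_of_neg_of_neg h4 h5

end Core

section Seq

variable {E : Type} [NormedAddCommGroup E] [InnerProductSpace ℝ E] [FiniteDimensional ℝ E]

/-- The cutting planes. -/
theorem exists_cut {M K L : Set E} (hM : StarB M) (hK : StarB K) (hL : StarB L) {u e : E}
    {δ₀ : ℝ} (hδ₀ : 0 < δ₀)
    (h : ∀ δ : ℝ, |δ| < δ₀ → u + δ • e ∈ Dir M ∧ u + δ • e ∉ interior (Dir M)) :
    ∃ (w e' : ℕ → E) (η : ℕ → ℝ), (∀ j, 0 < η j) ∧ Tendsto η atTop (𝓝 0) ∧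
      Tendsto w atTop (𝓝 u) ∧ Tendsto e' atTop (𝓝 e) ∧ (∀ j, w j ∈ Dir M) ∧
      (∀ j, w j + η j • e' j ∉ Dir M) ∧ (∀ j, Reg K (Submodule.span ℝ {w j, e' j})) ∧
      (∀ j, Reg L (Submodule.span ℝ {w j, e' j})) := by
  have huM : u ∈ Dir M := by
    have := (h 0 (by simpa using hδ₀)).1
    simpa using this
  have huI : u ∉ interior (Dir M) := by
    have := (h 0 (by simpa using hδ₀)).2
    simpa using this
  obtain ⟨ε₁, hε₁, hloc⟩ := hM.loc_closed huM
  have hstep : ∀ j : ℕ, ∃ w n : E, w ∈ Dir M ∧ n ∉ Dir M ∧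
      dist w (u - (δ₀ / ((j : ℝ) + 2)) • e) < (δ₀ / ((j : ℝ) + 2)) ^ 2 ∧
      dist n u < (δ₀ / ((j : ℝ) + 2)) ^ 2 ∧ Reg K (Submodule.span ℝ {w, n}) ∧
      Reg L (Submodule.span ℝ {w, n}) := by
    intro j
    have hη : 0 < δ₀ / ((j : ℝ) + 2) := by positivity
    have hη1 : δ₀ / ((j : ℝ) + 2) < δ₀ := by
      rw [div_lt_iff₀ (by positivity)]
      have : (0 : ℝ) ≤ j := Nat.cast_nonneg j
      nlinarith
    set η := δ₀ / ((j : ℝ) + 2) with hηdef
    have h1 : u - η • e ∈ Dir M := by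
      have := (h (-η) (by rw [abs_neg, abs_of_pos hη]; exact hη1)).1
      rwa [neg_smul, ← sub_eq_add_neg] at this
    have hO1 : (interior (Dir M) ∩ Metric.ball (u - η • e) (η ^ 2)).Nonempty := by
      obtain ⟨z, hz, hz'⟩ := hM.exists_interior_near h1 (ε := η ^ 2) (by positivity)
      exact ⟨z, hz, hz'⟩
    have hO2 : ((closure (Dir M))ᶜ ∩ Metric.ball u (η ^ 2)).Nonempty := by
      have hmin : 0 < min ε₁ (η ^ 2) := by positivity
      by_contra hcon
      apply huI
      rw [mem_interior]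
      refine ⟨Metric.ball u (min ε₁ (η ^ 2)), ?_, Metric.isOpen_ball, Metric.mem_ball_self hmin⟩
      intro z hz
      have hz1 : z ∈ Metric.ball u ε₁ := Metric.ball_subset_ball (min_le_left _ _) hz
      have hz2 : z ∈ Metric.ball u (η ^ 2) := Metric.ball_subset_ball (min_le_right _ _) hz
      apply hloc z hz1
      by_contra hzc
      exact hcon ⟨z, hzc, hz2⟩
    obtain ⟨w, ⟨hw1, hw2⟩, n, ⟨hn1, hn2⟩, hr1, hr2⟩ := exists_reg_pair hK hL
      (isOpen_interior.inter Metric.isOpen_ball)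
      (isClosed_closure.isOpen_compl.inter Metric.isOpen_ball) hO1 hO2
    exact ⟨w, n, interior_subset hw1, fun hn => hn1 (subset_closure hn), hw2, hn2, hr1, hr2⟩
  choose w n hw hn hwd hnd hr1 hr2 using hstep
  have hη : ∀ j : ℕ, 0 < δ₀ / ((j : ℝ) + 2) := fun j => by positivity
  have hη0 : Tendsto (fun j : ℕ => δ₀ / ((j : ℝ) + 2)) atTop (𝓝 0) := by
    refine Tendsto.const_div_atTop ?_ _
    exact tendsto_atTop_add_const_right _ _ tendsto_natCast_atTop_atTop
  set η : ℕ → ℝ := fun j => δ₀ / ((j : ℝ) + 2) with hηdef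
  have hspan : ∀ j, Submodule.span ℝ {w j, n j} =
      Submodule.span ℝ {w j, (η j)⁻¹ • (n j - w j)} := by
    intro j
    apply le_antisymm
    · rw [Submodule.span_le]
      rintro z hz
      rcases hz with rfl | hz
      · exact Submodule.subset_span (by simp)
      · rw [mem_singleton_iff] at hz
        subst hz
        refine Submodule.mem_span_pair.2 ⟨1, η j, ?_⟩
        rw [one_smul, smul_smul, mul_inv_cancel₀ (hη j).ne', one_smul]
        abel
    · rw [Submodule.span_le]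
      rintro z hz
      rcases hz with rfl | hz
      · exact Submodule.subset_span (by simp)
      · rw [mem_singleton_iff] at hz
        subst hz
        refine Submodule.mem_span_pair.2 ⟨-(η j)⁻¹, (η j)⁻¹, ?_⟩
        module
  refine ⟨w, fun j => (η j)⁻¹ • (n j - w j), η, hη, hη0, ?_, ?_, hw, ?_, ?_, ?_⟩
  · have h1 : Tendsto (fun j => (u - η j • e) + (w j - (u - η j • e))) atTop
        (𝓝 ((u - (0 : ℝ) • e) + 0)) := by
      refine (tendsto_const_nhds.sub (hη0.smul tendsto_const_nhds)).add ?_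
      rw [tendsto_zero_iff_norm_tendsto_zero]
      have h2 : Tendsto (fun j => (η j) ^ 2) atTop (𝓝 0) := by
        have := hη0.pow 2
        simpa using this
      refine squeeze_zero (fun j => norm_nonneg _) (fun j => ?_) h2
      have := hwd j
      rw [dist_eq_norm] at this
      exact this.le
    simpa using h1
  · have h1 : Tendsto (fun j => e + ((η j)⁻¹ • (n j - w j) - e)) atTop (𝓝 (e + 0)) := by
      refine tendsto_const_nhds.add ?_
      rw [tendsto_zero_iff_norm_tendsto_zero]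
      have h2 : Tendsto (fun j => 2 * (η j)) atTop (𝓝 0) := by
        have := hη0.const_mul 2
        simpa using this
      refine squeeze_zero (fun j => norm_nonneg _) (fun j => ?_) h2
      have h3 := hwd j
      have h4 := hnd j
      rw [dist_eq_norm] at h3 h4
      have h5 : (η j)⁻¹ • (n j - w j) - e = (η j)⁻¹ • ((n j - u) - (w j - (u - η j • e))) := by
        have : (n j - u) - (w j - (u - η j • e)) = (n j - w j) - η j • e := by abel
        rw [this, smul_sub ((η j)⁻¹) (n j - w j) (η j • e), smul_smul, inv_mul_cancel₀ (hη j).ne',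
          one_smul]
      rw [h5, norm_smul, Real.norm_eq_abs, abs_of_pos (inv_pos.2 (hη j)), inv_mul_le_iff₀ (hη j)]
      calc ‖(n j - u) - (w j - (u - η j • e))‖ ≤ ‖n j - u‖ + ‖w j - (u - η j • e)‖ :=
            norm_sub_le _ _
        _ ≤ (η j) ^ 2 + (η j) ^ 2 := add_le_add h4.le h3.le
        _ = η j * (2 * η j) := by ring
    simpa using h1
  · intro j
    have : w j + η j • ((η j)⁻¹ • (n j - w j)) = n j := by
      rw [smul_smul, mul_inv_cancel₀ (hη j).ne', one_smul]; abel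
    rw [this]
    exact hn j
  · intro j
    rw [← hspan j]; exact hr1 j
  · intro j
    rw [← hspan j]; exact hr2 j

end Seq

end Pool.Agent.H11.SB
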