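import Pool.Agent.H63.SB.Targets

/-!
# MP_bd4439_gt, module D1: bad hyperplanes form a one-parameter family
-/

namespace Pool.Agent.H11.SB

open Set Filter Topology Pool.Agent.H63.SB
open scoped RealInnerProductSpace NNReal ENNReal

section

variable {E : Type} [NormedAddCommGroup E] [InnerProductSpace ℝ E]

/-- `Bad` is invariant under scaling. -/
theorem bad_smul {D : Set E} {c : E} {r : ℝ} {ν : E} (h : ν ∈ Bad D c r) {t : ℝ} (ht : t ≠ 0) :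
    t • ν ∈ Bad D c r := by
  obtain ⟨h0, h1, ⟨v, hv, hv0⟩, h3⟩ := h
  refine ⟨smul_ne_zero ht h0, fun w hw hw0 => h1 w hw ?_, ⟨v, hv, ?_⟩, ?_⟩
  · rw [real_inner_smul_left] at hw0
    exact (mul_eq_zero.1 hw0).resolve_left ht
  · rw [real_inner_smul_left, hv0, mul_zero]
  · refine map_mem_closure (f := fun ν : E => t • ν) (continuous_const_smul t) h3 ?_
    intro μ hμ w hw hw0
    refine hμ w hw ?_
    rw [real_inner_smul_left] at hw0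
    exact (mul_eq_zero.1 hw0).resolve_left ht

/-- Two bad hyperplanes do not cross inside the ball. -/
theorem noncross {D : Set E} {c : E} {r : ℝ} {ν ν' v : E} (h : ν ∈ Bad D c r)
    (h' : ν' ∈ Bad D c r) (hv : v ∈ Metric.ball c r) (h1 : ⟪ν, v⟫ = 0) (h2 : ⟪ν', v⟫ = 0) :
    ∃ t : ℝ, ν = t • ν' := by
  by_contra hcon
  push Not at hcon
  have hν'0 : ν' ≠ 0 := h'.1
  have hn : ‖ν'‖ ^ 2 ≠ 0 := by positivity
  set e : E := ν - (⟪ν', ν⟫ / ‖ν'‖ ^ 2) • ν' with he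
  have he0 : e ≠ 0 := by
    intro h0
    exact hcon _ (sub_eq_zero.1 h0)
  have he1 : ⟪ν', e⟫ = 0 := by
    rw [he, inner_sub_right, real_inner_smul_right, real_inner_self_eq_norm_sq]
    field_simp
    ring
  have he2 : ⟪ν, e⟫ = ‖e‖ ^ 2 := by
    have : ν = e + (⟪ν', ν⟫ / ‖ν'‖ ^ 2) • ν' := by rw [he]; abel
    conv_lhs => rw [this]
    rw [inner_add_left, real_inner_smul_left, he1, mul_zero, add_zero, real_inner_self_eq_norm_sq]
  have he3 : ⟪ν, e⟫ ≠ 0 := by rw [he2]; positivity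
  -- the correction map
  have hc1 : ContinuousAt (fun μ : E => v - (⟪μ, v⟫ / ⟪μ, e⟫) • e) ν := by
    refine continuousAt_const.sub (ContinuousAt.smul (ContinuousAt.div ?_ ?_ he3) continuousAt_const)
    · exact (continuous_id.inner continuous_const).continuousAt
    · exact (continuous_id.inner continuous_const).continuousAt
  have hval : (fun μ : E => v - (⟪μ, v⟫ / ⟪μ, e⟫) • e) ν = v := by
    simp [h1]
  have hball : ∀ᶠ μ in 𝓝 ν, v - (⟪μ, v⟫ / ⟪μ, e⟫) • e ∈ Metric.ball c r := by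
    refine hc1.eventually_mem ?_
    simp only [h1, zero_div, zero_smul, sub_zero]
    exact Metric.isOpen_ball.mem_nhds hv
  have hne : ∀ᶠ μ in 𝓝 ν, ⟪μ, e⟫ ≠ 0 := by
    have : ContinuousAt (fun μ : E => ⟪μ, e⟫) ν :=
      (continuous_id.inner continuous_const).continuousAt
    exact this.eventually_ne he3
  obtain ⟨μ, hμ, hμ1, hμ2⟩ := ((mem_closure_iff_frequently.1 h.2.2.2).and_eventually
    (hball.and hne)).exists
  set w : E := v - (⟪μ, v⟫ / ⟪μ, e⟫) • e with hw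
  have hw1 : ⟪μ, w⟫ = 0 := by
    rw [hw, inner_sub_right, real_inner_smul_right, div_mul_cancel₀ _ hμ2, sub_self]
  have hw2 : ⟪ν', w⟫ = 0 := by
    rw [hw, inner_sub_right, real_inner_smul_right, he1, h2]; simp
  exact hμ w hμ1 hw1 (h'.2.1 w hμ1 hw2)

/-- The Lipschitz estimate. -/
theorem lip {D : Set E} {c : E} {r : ℝ} (hr : 0 < r) {d ν ν' : E} (hd : ‖d‖ ≤ 1)
    (h : ν ∈ Bad D c r) (h' : ν' ∈ Bad D c r) (hνd : ⟪ν, d⟫ = 1) (hνd' : ⟪ν', d⟫ = 1)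
    (hn : ‖ν‖ ≤ 2) : ‖ν - ν'‖ ≤ 6 / r * |⟪ν, c⟫ - ⟪ν', c⟫| := by
  rcases eq_or_ne ν ν' with heq | hne
  · subst heq; simp
  obtain ⟨v0, hv0, hv00⟩ := h.2.2.1
  rw [Metric.mem_closedBall, dist_eq_norm] at hv0
  set δ : E := ν - ν' with hδ
  have hδd : ⟪δ, d⟫ = 0 := by rw [hδ, inner_sub_left, hνd, hνd', sub_self]
  have key : ∀ z : E, ⟪ν, z⟫ = 0 → |⟪δ, z⟫| * (7 * r / 8) ≤ |⟪δ, v0⟫| * ‖z‖ := by
    intro z hz
    by_contra hcon
    push Not at hcon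
    have hz0 : ⟪δ, z⟫ ≠ 0 := by
      intro h0
      rw [h0, abs_zero, zero_mul] at hcon
      have : 0 ≤ |⟪δ, v0⟫| * ‖z‖ := by positivity
      linarith
    have hz0' : 0 < |⟪δ, z⟫| := abs_pos.2 hz0
    set t : ℝ := -⟪δ, v0⟫ / ⟪δ, z⟫ with ht
    have h1 : ‖t • z‖ < 7 * r / 8 := by
      rw [norm_smul, Real.norm_eq_abs, ht, abs_div, abs_neg, div_mul_eq_mul_div,
        div_lt_iff₀ hz0']
      linarith
    have h2 : v0 + t • z ∈ Metric.ball c r := by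
      rw [Metric.mem_ball, dist_eq_norm]
      have : v0 + t • z - c = (v0 - c) + t • z := by abel
      rw [this]
      calc ‖(v0 - c) + t • z‖ ≤ ‖v0 - c‖ + ‖t • z‖ := norm_add_le _ _
        _ < r := by linarith
    have h3 : ⟪ν, v0 + t • z⟫ = 0 := by
      rw [inner_add_right, real_inner_smul_right, hv00, hz]; simp
    have h4 : ⟪δ, v0 + t • z⟫ = 0 := by
      rw [inner_add_right, real_inner_smul_right, ht, div_mul_cancel₀ _ hz0]; ring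
    have h5 : ⟪ν', v0 + t • z⟫ = 0 := by
      have : ν' = ν - δ := by rw [hδ]; abel
      rw [this, inner_sub_left, h3, h4, sub_self]
    obtain ⟨s, hs⟩ := noncross h h' h2 h3 h5
    apply hne
    have : s = 1 := by
      have h6 := hνd
      rw [hs, real_inner_smul_left, hνd', mul_one] at h6
      exact h6
    rw [hs, this, one_smul]
  -- the point `c`
  have ha : |⟪ν, c⟫| ≤ r / 4 := by
    have h1 : ⟪ν, c⟫ = ⟪ν, c - v0⟫ := by rw [inner_sub_right, hv00, sub_zero]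
    rw [h1]
    calc |⟪ν, c - v0⟫| ≤ ‖ν‖ * ‖c - v0‖ := abs_real_inner_le_norm _ _
      _ ≤ 2 * (r / 8) := by
          apply mul_le_mul hn _ (norm_nonneg _) (by norm_num)
          rw [norm_sub_rev]; exact hv0
      _ = r / 4 := by ring
  set z1 : E := c - v0 - ⟪ν, c⟫ • d with hz1
  have hz1' : ⟪ν, z1⟫ = 0 := by
    rw [hz1, inner_sub_right, inner_sub_right, real_inner_smul_right, hv00, hνd]; ring
  have hz1n : ‖z1‖ ≤ 3 * r / 8 := by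
    calc ‖z1‖ ≤ ‖c - v0‖ + ‖⟪ν, c⟫ • d‖ := norm_sub_le _ _
      _ = ‖v0 - c‖ + |⟪ν, c⟫| * ‖d‖ := by rw [norm_smul, Real.norm_eq_abs, norm_sub_rev]
      _ ≤ r / 8 + r / 4 * 1 := by
          apply add_le_add hv0
          exact mul_le_mul ha hd (norm_nonneg _) (by positivity)
      _ = 3 * r / 8 := by ring
  have hk1 := key z1 hz1'
  have hk1' : |⟪δ, z1⟫| ≤ 3 / 7 * |⟪δ, v0⟫| := by
    have h1 : |⟪δ, z1⟫| * (7 * r / 8) ≤ |⟪δ, v0⟫| * (3 * r / 8) :=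
      hk1.trans (mul_le_mul_of_nonneg_left hz1n (abs_nonneg _))
    have h2 : 0 ≤ |⟪δ, v0⟫| := abs_nonneg _
    have h3 : (|⟪δ, z1⟫| - 3 / 7 * |⟪δ, v0⟫|) * (7 * r / 8) ≤ 0 := by
      have : (|⟪δ, z1⟫| - 3 / 7 * |⟪δ, v0⟫|) * (7 * r / 8)
        = |⟪δ, z1⟫| * (7 * r / 8) - |⟪δ, v0⟫| * (3 * r / 8) := by ring
      linarith
    have h4 : |⟪δ, z1⟫| - 3 / 7 * |⟪δ, v0⟫| ≤ 0 := by
      by_contra h5
      push Not at h5
      have : 0 < (|⟪δ, z1⟫| - 3 / 7 * |⟪δ, v0⟫|) * (7 * r / 8) := by positivity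
      linarith
    linarith
  have hδc : ⟪δ, c⟫ = ⟪δ, v0⟫ + ⟪δ, z1⟫ := by
    rw [hz1, inner_sub_right, inner_sub_right, real_inner_smul_right, hδd]; ring
  have hδc' : 4 / 7 * |⟪δ, v0⟫| ≤ |⟪δ, c⟫| := by
    have h1 : |⟪δ, v0⟫| ≤ |⟪δ, c⟫| + |⟪δ, z1⟫| := by
      have : ⟪δ, v0⟫ = ⟪δ, c⟫ - ⟪δ, z1⟫ := by rw [hδc]; ring
      rw [this]
      exact abs_sub _ _
    linarith
  -- the norm of `δ`
  have hk2 := key (δ - ⟪ν, δ⟫ • d) (by
    rw [inner_sub_right, real_inner_smul_right, hνd]; ring)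
  have h1 : ⟪δ, δ - ⟪ν, δ⟫ • d⟫ = ‖δ‖ ^ 2 := by
    rw [inner_sub_right, real_inner_smul_right, hδd, mul_zero, sub_zero,
      real_inner_self_eq_norm_sq]
  have h2 : ‖δ - ⟪ν, δ⟫ • d‖ ≤ 3 * ‖δ‖ := by
    calc ‖δ - ⟪ν, δ⟫ • d‖ ≤ ‖δ‖ + ‖⟪ν, δ⟫ • d‖ := norm_sub_le _ _
      _ = ‖δ‖ + |⟪ν, δ⟫| * ‖d‖ := by rw [norm_smul, Real.norm_eq_abs]
      _ ≤ ‖δ‖ + (2 * ‖δ‖) * 1 := by
          have : |⟪ν, δ⟫| ≤ 2 * ‖δ‖ := (abs_real_inner_le_norm _ _).trans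
            (mul_le_mul_of_nonneg_right hn (norm_nonneg _))
          have := mul_le_mul this hd (norm_nonneg _) (by positivity)
          linarith
      _ = 3 * ‖δ‖ := by ring
  rw [h1, abs_of_nonneg (by positivity)] at hk2
  have hδpos : 0 < ‖δ‖ := norm_pos_iff.2 (sub_ne_zero.2 hne)
  have h3 : ‖δ‖ ^ 2 * (7 * r / 8) ≤ |⟪δ, v0⟫| * (3 * ‖δ‖) :=
    hk2.trans (mul_le_mul_of_nonneg_left h2 (abs_nonneg _))
  have h4 : ‖δ‖ * (7 * r / 8) ≤ |⟪δ, v0⟫| * 3 := by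
    have : ‖δ‖ * (‖δ‖ * (7 * r / 8)) ≤ ‖δ‖ * (|⟪δ, v0⟫| * 3) := by
      calc ‖δ‖ * (‖δ‖ * (7 * r / 8)) = ‖δ‖ ^ 2 * (7 * r / 8) := by ring
        _ ≤ |⟪δ, v0⟫| * (3 * ‖δ‖) := h3
        _ = ‖δ‖ * (|⟪δ, v0⟫| * 3) := by ring
    exact le_of_mul_le_mul_left this hδpos
  have h5 : ⟪ν, c⟫ - ⟪ν', c⟫ = ⟪δ, c⟫ := by rw [hδ, inner_sub_left]
  rw [h5, div_mul_eq_mul_div, le_div_iff₀ hr]
  nlinarith [h4, hδc']

variable [FiniteDimensional ℝ E]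

/-- The dimension estimate for one direction `d`. -/
theorem dimH_le {D : Set E} {c : E} {r : ℝ} (hr : 0 < r) {d : E} (hd : ‖d‖ ≤ 1) {n : ℕ}
    (hn : Module.finrank ℝ E = n + 1) :
    dimH {p : E × E | ∃ ν ∈ Bad D c r, ⟪ν, d⟫ = 1 ∧ ‖ν‖ ≤ 2 ∧ ⟪ν, p.1⟫ = 0 ∧ ⟪ν, p.2⟫ = 0} ≤
      ((2 * n + 1 : ℕ) : ℝ≥0∞) := by
  classical
  rcases eq_or_ne d 0 with hd0 | hd0
  · have : {p : E × E | ∃ ν ∈ Bad D c r, ⟪ν, d⟫ = 1 ∧ ‖ν‖ ≤ 2 ∧ ⟪ν, p.1⟫ = 0 ∧ ⟪ν, p.2⟫ = 0} = ∅ := by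
      ext p
      simp only [mem_ofPred_eq, mem_empty_iff_false, iff_false]
      rintro ⟨ν, -, h1, -⟩
      rw [hd0, inner_zero_right] at h1
      exact zero_ne_one h1
    rw [this, dimH_empty]
    exact zero_le
  set N : Set E := {ν : E | ν ∈ Bad D c r ∧ ⟪ν, d⟫ = 1 ∧ ‖ν‖ ≤ 2} with hN
  set φ : E → ℝ := fun ν => ⟪ν, c⟫ with hφ
  set g₀ : ℝ → E := Function.invFunOn φ N with hg₀
  have hg₀mem : ∀ s ∈ φ '' N, g₀ s ∈ N ∧ φ (g₀ s) = s := by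
    rintro s ⟨ν, hν, rfl⟩
    exact ⟨Function.invFunOn_mem ⟨ν, hν, rfl⟩, Function.invFunOn_eq ⟨ν, hν, rfl⟩⟩
  have hlip : LipschitzOnWith (Real.toNNReal (6 / r)) g₀ (φ '' N) := by
    apply LipschitzOnWith.of_dist_le_mul
    intro s hs s' hs'
    obtain ⟨h1, h2⟩ := hg₀mem s hs
    obtain ⟨h1', h2'⟩ := hg₀mem s' hs'
    rw [dist_eq_norm, Real.dist_eq, Real.coe_toNNReal _ (by positivity)]
    have := lip hr hd h1.1 h1'.1 h1.2.1 h1'.2.1 h1.2.2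
    rw [hφ] at h2 h2'
    simp only at h2 h2'
    rwa [h2, h2'] at this
  obtain ⟨g, hg, hgeq⟩ := hlip.extend_finite_dimension
  have hgN : ∀ ν ∈ N, g (φ ν) = ν := by
    intro ν hν
    have hs : φ ν ∈ φ '' N := ⟨ν, hν, rfl⟩
    rw [← hgeq hs]
    obtain ⟨h1, h2⟩ := hg₀mem _ hs
    have := lip hr hd h1.1 hν.1 h1.2.1 hν.2.1 h1.2.2
    rw [hφ] at h2
    simp only at h2
    rw [hφ] at this ⊢
    simp only at this ⊢
    rw [h2, sub_self, abs_zero, mul_zero] at this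
    exact sub_eq_zero.1 (norm_le_zero_iff.1 this)
  set H : Submodule ℝ E := (Submodule.span ℝ {d})ᗮ with hH
  let L : ℝ × H × H → E × H × H := fun p => (g p.1, p.2)
  have hL : LipschitzWith (max (lipschitzExtensionConstant E * Real.toNNReal (6 / r)) 1) L := by
    refine LipschitzWith.prodMk ?_ LipschitzWith.prod_snd
    have := hg.comp (LipschitzWith.prod_fst (α := ℝ) (β := H × H))
    rw [mul_one] at this
    exact this
  let G : E × H × H → E × E := fun p =>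
    ((p.2.1 : E) - ⟪p.1, (p.2.1 : E)⟫ • d, (p.2.2 : E) - ⟪p.1, (p.2.2 : E)⟫ • d)
  have hG : ContDiff ℝ 1 G := by
    have h1 : ContDiff ℝ 1 (fun p : E × H × H => p.1) := contDiff_fst
    have h2 : ContDiff ℝ 1 (fun p : E × H × H => (p.2.1 : E)) :=
      H.subtypeL.contDiff.comp (contDiff_fst.comp contDiff_snd)
    have h3 : ContDiff ℝ 1 (fun p : E × H × H => (p.2.2 : E)) :=
      H.subtypeL.contDiff.comp (contDiff_snd.comp contDiff_snd)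
    exact (h2.sub ((h1.inner ℝ h2).smul contDiff_const)).prodMk
      (h3.sub ((h1.inner ℝ h3).smul contDiff_const))
  have hsub : {p : E × E | ∃ ν ∈ Bad D c r, ⟪ν, d⟫ = 1 ∧ ‖ν‖ ≤ 2 ∧ ⟪ν, p.1⟫ = 0 ∧ ⟪ν, p.2⟫ = 0} ⊆
      G '' (range L) := by
    rintro ⟨b1, b2⟩ ⟨ν, hν, h1, h2, h3, h4⟩
    have hνN : ν ∈ N := ⟨hν, h1, h2⟩
    have hdec : ∀ b : E, ⟪ν, b⟫ = 0 → ∃ z : H, (z : E) - ⟪ν, (z : E)⟫ • d = b := by
      intro b hb
      have hdd : ‖d‖ ^ 2 ≠ 0 := by positivity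
      refine ⟨⟨b - (⟪d, b⟫ / ‖d‖ ^ 2) • d, ?_⟩, ?_⟩
      · rw [hH, Submodule.mem_orthogonal_singleton_iff_inner_right, inner_sub_right,
          real_inner_smul_right, real_inner_self_eq_norm_sq]
        field_simp
        ring
      · simp only
        rw [inner_sub_right, real_inner_smul_right, hb, h1]
        simp
    obtain ⟨z1, hz1⟩ := hdec b1 h3
    obtain ⟨z2, hz2⟩ := hdec b2 h4
    refine ⟨(ν, z1, z2), ⟨(φ ν, z1, z2), ?_⟩, ?_⟩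
    · simp only [L, hgN ν hνN]
    · simp only [G, hz1, hz2]
  have hfr : Module.finrank ℝ (ℝ × H × H) = 2 * n + 1 := by
    have h1 : Module.finrank ℝ H = n := by
      have : Fact (Module.finrank ℝ E = n + 1) := ⟨hn⟩
      exact Submodule.finrank_orthogonal_span_singleton hd0
    rw [Module.finrank_prod, Module.finrank_prod, h1, Module.finrank_self]
    ring
  calc dimH {p : E × E | ∃ ν ∈ Bad D c r, ⟪ν, d⟫ = 1 ∧ ‖ν‖ ≤ 2 ∧ ⟪ν, p.1⟫ = 0 ∧ ⟪ν, p.2⟫ = 0}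
      ≤ dimH (G '' (range L)) := dimH_mono hsub
    _ ≤ dimH (range L) := hG.contDiffOn.dimH_image_le convex_univ (subset_univ _)
    _ ≤ dimH (univ : Set (ℝ × H × H)) := hL.dimH_range_le
    _ = ((2 * n + 1 : ℕ) : ℝ≥0∞) := by rw [Real.dimH_univ_eq_finrank, hfr]

end

/-- **D1.** -/
theorem badDense : BadDenseStmt := by
  intro E _ _ _ D c r hr
  rcases Nat.eq_zero_or_pos (Module.finrank ℝ E) with h0 | hpos
  · have : Subsingleton E := Module.finrank_zero_iff.1 h0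
    have : {p : E × E | ∀ ν ∈ Bad D c r, ¬ (⟪ν, p.1⟫ = 0 ∧ ⟪ν, p.2⟫ = 0)} = univ := by
      ext p
      simp only [mem_ofPred_eq, mem_univ, iff_true]
      intro ν hν
      exact absurd (Subsingleton.elim ν 0) hν.1
    rw [this]
    exact dense_univ
  obtain ⟨n, hn⟩ : ∃ n, Module.finrank ℝ E = n + 1 := ⟨Module.finrank ℝ E - 1, by omega⟩
  let P : ℕ → Set (E × E) := fun i =>
    {p : E × E | ‖TopologicalSpace.denseSeq E i‖ ≤ 1 ∧
      ∃ ν ∈ Bad D c r, ⟪ν, TopologicalSpace.denseSeq E i⟫ = 1 ∧ ‖ν‖ ≤ 2 ∧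
        ⟪ν, p.1⟫ = 0 ∧ ⟪ν, p.2⟫ = 0}
  have hP : ∀ i, dimH (P i) ≤ ((2 * n + 1 : ℕ) : ℝ≥0∞) := by
    intro i
    by_cases hi : ‖TopologicalSpace.denseSeq E i‖ ≤ 1
    · exact (dimH_mono (fun p hp => hp.2)).trans (dimH_le hr hi hn)
    · have : P i = ∅ := by
        ext p
        simp only [P, mem_ofPred_eq, mem_empty_iff_false, iff_false, not_and]
        intro h
        exact absurd h hi
      rw [this, dimH_empty]
      exact zero_le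
  have hU : dimH (⋃ i, P i) < Module.finrank ℝ (E × E) := by
    rw [dimH_iUnion, Module.finrank_prod, hn]
    refine (iSup_le hP).trans_lt ?_
    exact_mod_cast (by omega : 2 * n + 1 < n + 1 + (n + 1))
  refine (dense_compl_of_dimH_lt_finrank hU).mono ?_
  intro p hp ν hν hcon
  apply hp
  have hν0 : 0 < ‖ν‖ := norm_pos_iff.2 hν.1
  -- a direction close to `ν`
  obtain ⟨i, hi⟩ : ∃ i, dist ((3 / 4 / ‖ν‖) • ν) (TopologicalSpace.denseSeq E i) < 1 / 4 :=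
    (TopologicalSpace.denseRange_denseSeq E).exists_dist_lt _ (by norm_num)
  set d := TopologicalSpace.denseSeq E i with hd
  rw [dist_eq_norm] at hi
  have hnu : ‖(3 / 4 / ‖ν‖) • ν‖ = 3 / 4 := by
    rw [norm_smul, Real.norm_eq_abs, abs_of_pos (by positivity)]
    field_simp
  have hd1 : ‖d‖ ≤ 1 := by
    have h1 : d = (3 / 4 / ‖ν‖) • ν - ((3 / 4 / ‖ν‖) • ν - d) := by abel
    rw [h1]
    calc _ ≤ ‖(3 / 4 / ‖ν‖) • ν‖ + ‖(3 / 4 / ‖ν‖) • ν - d‖ := norm_sub_le _ _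
      _ ≤ 1 := by rw [hnu]; linarith
  have hd2 : ‖ν‖ / 2 ≤ ⟪ν, d⟫ := by
    have h1 : ⟪ν, d⟫ = ⟪ν, (3 / 4 / ‖ν‖) • ν⟫ - ⟪ν, (3 / 4 / ‖ν‖) • ν - d⟫ := by
      rw [inner_sub_right]; ring
    have h2 : ⟪ν, (3 / 4 / ‖ν‖) • ν⟫ = 3 / 4 * ‖ν‖ := by
      rw [real_inner_smul_right, real_inner_self_eq_norm_sq]
      field_simp
    have h3 : ⟪ν, (3 / 4 / ‖ν‖) • ν - d⟫ ≤ ‖ν‖ * (1 / 4) :=
      (real_inner_le_norm _ _).trans (mul_le_mul_of_nonneg_left hi.le (norm_nonneg _))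
    rw [h1, h2]
    linarith
  have hd3 : 0 < ⟪ν, d⟫ := by linarith
  rw [mem_iUnion]
  refine ⟨i, hd1, (⟪ν, d⟫)⁻¹ • ν, bad_smul hν (by positivity), ?_, ?_, ?_, ?_⟩
  · rw [real_inner_smul_left, inv_mul_cancel₀ hd3.ne']
  · rw [norm_smul, Real.norm_eq_abs, abs_of_pos (by positivity), inv_mul_le_iff₀ hd3]
    linarith
  · rw [real_inner_smul_left, hcon.1, mul_zero]
  · rw [real_inner_smul_left, hcon.2, mul_zero]

end Pool.Agent.H11.SB
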