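import Pool.Agent.H11.SB.D1

/-!
# MP_bd4439_gt, module D2: frames orthogonal to a bad normal form a closed set
-/

namespace Pool.Agent.H11.SB

open Set Filter Topology Pool.Agent.H63.SB
open scoped RealInnerProductSpace

/-- A limit of unit bad normals is bad. -/
theorem bad_limit {E : Type} [NormedAddCommGroup E] [InnerProductSpace ℝ E] {D : Set E} {c : E}
    {r : ℝ} (hD : ∀ v ∈ Metric.ball c r, v ∈ closure D → v ∈ D) {u : ℕ → E} {u₀ : E}
    (hu : ∀ n, u n ∈ Bad D c r) (hn : ∀ n, ‖u n‖ = 1) (h : Tendsto u atTop (𝓝 u₀)) :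
    u₀ ∈ Bad D c r := by
  have hn0 : ‖u₀‖ = 1 := by
    have h1 : Tendsto (fun n => ‖u n‖) atTop (𝓝 ‖u₀‖) := h.norm
    simp only [hn] at h1
    exact tendsto_nhds_unique h1 tendsto_const_nhds |>.symm ▸ rfl
  refine ⟨by intro h0; rw [h0, norm_zero] at hn0; exact zero_ne_one hn0, ?_, ?_, ?_⟩
  · intro v hv hv0
    apply hD v hv
    have h1 : Tendsto (fun n => v - ⟪u n, v⟫ • u n) atTop (𝓝 v) := by
      have h2 : Tendsto (fun n => v - ⟪u n, v⟫ • u n) atTop (𝓝 (v - ⟪u₀, v⟫ • u₀)) :=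
        tendsto_const_nhds.sub ((h.inner tendsto_const_nhds).smul h)
      simpa [hv0] using h2
    refine mem_closure_of_tendsto h1 ?_
    filter_upwards [h1.eventually_mem (Metric.isOpen_ball.mem_nhds hv)] with n hnb
    apply (hu n).2.1 _ hnb
    rw [inner_sub_right, real_inner_smul_right, real_inner_self_eq_norm_sq, hn n]
    ring
  · have h1 : ∀ n, |⟪u n, c⟫| ≤ r / 8 := by
      intro n
      obtain ⟨v, hv, hv0⟩ := (hu n).2.2.1
      rw [Metric.mem_closedBall, dist_eq_norm] at hv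
      have h2 : ⟪u n, c⟫ = ⟪u n, c - v⟫ := by rw [inner_sub_right, hv0, sub_zero]
      rw [h2]
      calc |⟪u n, c - v⟫| ≤ ‖u n‖ * ‖c - v‖ := abs_real_inner_le_norm _ _
        _ ≤ r / 8 := by rw [hn n, one_mul, norm_sub_rev]; exact hv
    have h2 : |⟪u₀, c⟫| ≤ r / 8 :=
      le_of_tendsto ((h.inner tendsto_const_nhds).abs) (Eventually.of_forall h1)
    refine ⟨c - ⟪u₀, c⟫ • u₀, ?_, ?_⟩
    · rw [Metric.mem_closedBall, dist_eq_norm, sub_sub_cancel_left, norm_neg, norm_smul, hn0,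
        mul_one, Real.norm_eq_abs]
      exact h2
    · rw [inner_sub_right, real_inner_smul_right, real_inner_self_eq_norm_sq, hn0]
      ring
  · exact isClosed_closure.mem_of_tendsto h (Eventually.of_forall fun n => (hu n).2.2.2)

/-- **D2.** -/
theorem badClosed : BadClosedStmt := by
  intro E _ _ _ D c r j hr hD
  apply IsSeqClosed.isClosed
  intro b b₀ hb hlim
  choose ν hν hνb using hb
  have hν0 : ∀ n, 0 < ‖ν n‖ := fun n => norm_pos_iff.2 (hν n).1
  set u : ℕ → E := fun n => (‖ν n‖)⁻¹ • ν n with hu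
  have hu1 : ∀ n, ‖u n‖ = 1 := by
    intro n
    rw [hu]
    simp only
    rw [norm_smul, norm_inv, norm_norm, inv_mul_cancel₀ (hν0 n).ne']
  have huB : ∀ n, u n ∈ Bad D c r := fun n => bad_smul (hν n) (inv_ne_zero (hν0 n).ne')
  obtain ⟨u₀, -, φ, hφ, hφl⟩ := (isCompact_sphere (0 : E) 1).tendsto_subseq
    (x := u) (fun n => by rw [mem_sphere_zero_iff_norm]; exact hu1 n)
  refine ⟨u₀, bad_limit hD (fun n => huB (φ n)) (fun n => hu1 (φ n)) hφl, ?_⟩
  intro i
  have h1 : Tendsto (fun n => ⟪u (φ n), b (φ n) i⟫) atTop (𝓝 ⟪u₀, b₀ i⟫) := by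
    refine hφl.inner ?_
    exact ((tendsto_pi_nhds.1 hlim) i).comp hφ.tendsto_atTop
  have h2 : ∀ n, ⟪u (φ n), b (φ n) i⟫ = 0 := by
    intro n
    rw [hu]
    simp only
    rw [real_inner_smul_left, hνb (φ n) i, mul_zero]
  simp only [h2] at h1
  exact tendsto_nhds_unique h1 tendsto_const_nhds

end Pool.Agent.H11.SB
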