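import Pool.Agent.H63.SB.Targets

/-!
# MP_bd4439_gt, module W1: there are only countably many directions of non-radial segments
-/

namespace Pool.Agent.H11.SB

open Set Filter Topology Pool.Agent.H63.SB
open scoped RealInnerProductSpace Pointwise

theorem rad_smul' {E : Type} [NormedAddCommGroup E] [InnerProductSpace ℝ E] (K : Set E) (z : E)
    {t : ℝ} (ht : 0 < t) : rad K (t • z) = rad K z / t := by
  unfold rad
  have h : {s : ℝ | 0 ≤ s ∧ s • z ∈ K} = t • {s : ℝ | 0 ≤ s ∧ s • t • z ∈ K} := by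
    ext s
    rw [Set.mem_smul_set_iff_inv_smul_mem₀ ht.ne']
    simp only [mem_ofPred_eq, smul_eq_mul, smul_smul]
    have h1 : t⁻¹ * s * t = s := by field_simp
    rw [h1]
    constructor
    · rintro ⟨h2, h3⟩
      exact ⟨by positivity, h3⟩
    · rintro ⟨h2, h3⟩
      refine ⟨?_, h3⟩
      by_contra h4
      push Not at h4
      have : t⁻¹ * s < 0 := mul_neg_of_pos_of_neg (inv_pos.2 ht) h4
      linarith
  rw [h, Real.sSup_smul_of_nonneg ht.le, smul_eq_mul]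
  field_simp

/-- **W1.** -/
theorem segCount : SegCountStmt := by
  intro E _ _ _ K a d hli
  classical
  have hpair : ∀ s t s' t' : ℝ, s • a + t • d = s' • a + t' • d → s = s' ∧ t = t' := by
    intro s t s' t' h
    have h1 : (s - s') • a + (t - t') • d = 0 := by
      rw [sub_smul, sub_smul]
      have : s • a - s' • a + (t • d - t' • d) = (s • a + t • d) - (s' • a + t' • d) := by abel
      rw [this, h, sub_self]
    have := LinearIndependent.pair_iff.1 hli _ _ h1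
    exact ⟨sub_eq_zero.1 this.1, sub_eq_zero.1 this.2⟩
  -- coordinates of the data
  have hdata : ∀ τ ∈ {τ : ℝ | Seg K (a + τ • d) d}, ∃ (y1 Δ c ρ : ℝ), Δ ≠ 0 ∧ 0 < c ∧ 0 < ρ ∧
      ∀ p : ℝ × ℝ, 0 < (p.2 - τ * p.1) / Δ → 0 < p.1 - (p.2 - τ * p.1) / Δ * y1 →
        p.1 - (p.2 - τ * p.1) / Δ * y1 < c * ((p.2 - τ * p.1) / Δ) →
        rad K (p.1 • a + p.2 • d) = ρ / ((p.2 - τ * p.1) / Δ) := by
    rintro τ ⟨y, c, ρ, hy, hyu, hc, hρ, h⟩
    obtain ⟨α, β, hαβ⟩ := Submodule.mem_span_pair.1 hy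
    have hyd : y = α • a + (α * τ + β) • d := by
      rw [← hαβ]
      module
    have hβ : β ≠ 0 := by
      intro h0
      apply hyu α
      rw [← hαβ, h0, zero_smul, add_zero]
    refine ⟨α, β, c, ρ, hβ, hc, hρ, ?_⟩
    intro p h1 h2 h3
    set s := (p.2 - τ * p.1) / β with hs
    have hsne : s ≠ 0 := h1.ne'
    have ht := h ((p.1 - s * α) / s) (div_pos h2 h1) (by rw [div_lt_iff₀ h1]; exact h3)
    have hp : p.1 • a + p.2 • d = s • (y + ((p.1 - s * α) / s) • (a + τ • d)) := by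
      have h4 : p.2 = τ * p.1 + s * β := by
        rw [hs]; field_simp; ring
      rw [hyd, smul_add, smul_add, smul_smul, smul_smul, smul_smul, smul_add, smul_smul]
      have h5 : s * ((p.1 - s * α) / s) = p.1 - s * α := by field_simp
      rw [h5, h4]
      module
    rw [hp, rad_smul' K _ h1, ht.2]
  choose! y1 Δ c ρ hΔ hc hρ hrad using hdata
  let Γ : ℝ → Set (ℝ × ℝ) := fun τ =>
    {p | 0 < (p.2 - τ * p.1) / Δ τ ∧ 0 < p.1 - (p.2 - τ * p.1) / Δ τ * y1 τ ∧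
      p.1 - (p.2 - τ * p.1) / Δ τ * y1 τ < c τ * ((p.2 - τ * p.1) / Δ τ)}
  refine Set.PairwiseDisjoint.countable_of_isOpen (s := Γ) ?_ ?_ ?_
  · intro τ hτ τ' hτ' hne
    rw [Function.onFun, Set.disjoint_left]
    intro p hp hp'
    apply hne
    -- both sets are neighbourhoods of `p`
    have hopen : ∀ σ : ℝ, IsOpen (Γ σ) := by
      intro σ
      have hc1 : Continuous fun p : ℝ × ℝ => (p.2 - σ * p.1) / Δ σ := by fun_prop
      have hc2 : Continuous fun p : ℝ × ℝ => p.1 - (p.2 - σ * p.1) / Δ σ * y1 σ := by fun_prop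
      exact (isOpen_lt continuous_const hc1).inter ((isOpen_lt continuous_const hc2).inter
        (isOpen_lt hc2 (hc1.const_mul _)))
    have hO : IsOpen (Γ τ ∩ Γ τ') := (hopen τ).inter (hopen τ')
    have hev1 : ∀ᶠ ε : ℝ in 𝓝 0, (p.1 + ε, p.2) ∈ Γ τ ∩ Γ τ' := by
      have hcont : Continuous fun ε : ℝ => (p.1 + ε, p.2) := by fun_prop
      refine hcont.continuousAt.eventually_mem ?_
      simpa using hO.mem_nhds ⟨hp, hp'⟩
    have hev2 : ∀ᶠ ε : ℝ in 𝓝 0, (p.1, p.2 + ε) ∈ Γ τ ∩ Γ τ' := by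
      have hcont : Continuous fun ε : ℝ => (p.1, p.2 + ε) := by fun_prop
      refine hcont.continuousAt.eventually_mem ?_
      simpa using hO.mem_nhds ⟨hp, hp'⟩
    obtain ⟨ε, hε0, hε1, hε2⟩ : ∃ ε : ℝ, 0 < ε ∧ (p.1 + ε, p.2) ∈ Γ τ ∩ Γ τ' ∧
        (p.1, p.2 + ε) ∈ Γ τ ∩ Γ τ' := by
      have h1 : ∀ᶠ ε : ℝ in 𝓝[>] 0, (p.1 + ε, p.2) ∈ Γ τ ∩ Γ τ' ∧
        (p.1, p.2 + ε) ∈ Γ τ ∩ Γ τ' := (hev1.and hev2).filter_mono nhdsWithin_le_nhds
      obtain ⟨ε, h2, h3⟩ := (h1.and self_mem_nhdsWithin).exists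
      exact ⟨ε, h3, h2⟩
    -- the linear functionals agree on the intersection
    have hfun : ∀ q ∈ Γ τ ∩ Γ τ', (q.2 - τ * q.1) / (Δ τ * ρ τ) = (q.2 - τ' * q.1) / (Δ τ' * ρ τ') := by
      rintro q ⟨hq, hq'⟩
      have h1 := hrad τ hτ q hq.1 hq.2.1 hq.2.2
      have h2 := hrad τ' hτ' q hq'.1 hq'.2.1 hq'.2.2
      have h3 : ρ τ / ((q.2 - τ * q.1) / Δ τ) = ρ τ' / ((q.2 - τ' * q.1) / Δ τ') := by rw [← h1, h2]
      have h4 := hρ τ hτ
      have h5 := hρ τ' hτ'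
      have h6 : (q.2 - τ * q.1) / (Δ τ * ρ τ) = (ρ τ / ((q.2 - τ * q.1) / Δ τ))⁻¹ := by
        rw [inv_div, div_div]
      have h7 : (q.2 - τ' * q.1) / (Δ τ' * ρ τ') = (ρ τ' / ((q.2 - τ' * q.1) / Δ τ'))⁻¹ := by
        rw [inv_div, div_div]
      rw [h6, h7, h3]
    have e0 := hfun p ⟨hp, hp'⟩
    have e1 := hfun _ hε1
    have e2 := hfun _ hε2
    simp only at e1 e2
    have hA : Δ τ * ρ τ ≠ 0 := mul_ne_zero (hΔ τ hτ) (hρ τ hτ).ne'
    have hB : Δ τ' * ρ τ' ≠ 0 := mul_ne_zero (hΔ τ' hτ') (hρ τ' hτ').ne'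
    set A := Δ τ * ρ τ with hAdef
    set B := Δ τ' * ρ τ' with hBdef
    have f2 : ε / A = ε / B := by
      have h1 : (p.2 + ε - τ * p.1) / A - (p.2 - τ * p.1) / A = ε / A := by ring
      have h2 : (p.2 + ε - τ' * p.1) / B - (p.2 - τ' * p.1) / B = ε / B := by ring
      rw [← h1, ← h2, e2, e0]
    have f1 : τ * ε / A = τ' * ε / B := by
      have h1 : (p.2 - τ * p.1) / A - (p.2 - τ * (p.1 + ε)) / A = τ * ε / A := by ring
      have h2 : (p.2 - τ' * p.1) / B - (p.2 - τ' * (p.1 + ε)) / B = τ' * ε / B := by ring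
      rw [← h1, ← h2, e1, e0]
    have f3 : A = B := by
      have h1 : ε ≠ 0 := hε0.ne'
      rw [div_eq_div_iff hA hB] at f2
      exact (mul_left_cancel₀ h1 f2).symm
    rw [f3] at f1
    rw [div_left_inj' hB] at f1
    exact mul_right_cancel₀ hε0.ne' f1
  · intro σ _
    have hc1 : Continuous fun p : ℝ × ℝ => (p.2 - σ * p.1) / Δ σ := by fun_prop
    have hc2 : Continuous fun p : ℝ × ℝ => p.1 - (p.2 - σ * p.1) / Δ σ * y1 σ := by fun_prop
    exact (isOpen_lt continuous_const hc1).inter ((isOpen_lt continuous_const hc2).inter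
      (isOpen_lt hc2 (hc1.const_mul _)))
  · intro τ hτ
    -- the point with s = 1, w = c / 2
    refine ⟨(y1 τ + c τ / 2, Δ τ + τ * (y1 τ + c τ / 2)), ?_⟩
    have h1 := hΔ τ hτ
    have h2 := hc τ hτ
    have h3 : (Δ τ + τ * (y1 τ + c τ / 2) - τ * (y1 τ + c τ / 2)) / Δ τ = 1 := by
      rw [add_sub_cancel_right, div_self h1]
    simp only [Γ, mem_ofPred_eq, h3]
    refine ⟨one_pos, ?_, ?_⟩ <;> linarith

end Pool.Agent.H11.SB
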