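import Pool.Agent.H11.SB.Cut

/-!
# MP_bd4439_gt, module W2: cut lemma for `K`
-/

namespace Pool.Agent.H11.SB

open Set Filter Topology Pool.Agent.H63.SB
open scoped RealInnerProductSpace

theorem li_coord {E : Type} [NormedAddCommGroup E] [InnerProductSpace ℝ E] {u e : E}
    (hli : LinearIndependent ℝ ![u, e]) {s t : ℝ} (ht : t ≠ 0) : s • u + t • e ≠ 0 := by
  intro h
  exact ht (LinearIndependent.pair_iff.1 hli s t h).2

theorem finrank_pair {E : Type} [NormedAddCommGroup E] [InnerProductSpace ℝ E] {w e' : ℕ → E}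
    {u e : E} (hw : Tendsto w atTop (𝓝 u)) (he : Tendsto e' atTop (𝓝 e))
    (hli : LinearIndependent ℝ ![u, e]) :
    ∀ᶠ j in atTop, Module.finrank ℝ (Submodule.span ℝ {w j, e' j}) = 2 := by
  filter_upwards [(tendsto_gram hw he).eventually_ne (gram_ne_zero hli)] with j hj
  exact finrank_span_pair (li_of_gram hj)

/-- A small parameter. -/
theorem exists_small {t a b R δ₁ : ℝ} (ht : 0 < t) (hR : 1 < R) (hδ₁ : 0 < δ₁) (hb : b < 0) :
    ∃ ε : ℝ, 0 < ε ∧ 1 + ε ≤ R ∧ 0 < (1 + ε) * t - ε * a ∧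
      0 < -(ε * b) / ((1 + ε) * t - ε * a) ∧ -(ε * b) / ((1 + ε) * t - ε * a) < δ₁ := by
  have h1 : ∀ᶠ ε : ℝ in 𝓝 0, 1 + ε < R := by
    have : ContinuousAt (fun ε : ℝ => 1 + ε) 0 := by fun_prop
    exact this.eventually_lt_const (by simpa using hR)
  have h2 : ∀ᶠ ε : ℝ in 𝓝 0, 0 < (1 + ε) * t - ε * a := by
    have : ContinuousAt (fun ε : ℝ => (1 + ε) * t - ε * a) 0 := by fun_prop
    exact this.eventually_const_lt (by simpa using ht)
  have h3 : ∀ᶠ ε : ℝ in 𝓝 0, -(ε * b) / ((1 + ε) * t - ε * a) < δ₁ := by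
    have : ContinuousAt (fun ε : ℝ => -(ε * b) / ((1 + ε) * t - ε * a)) 0 := by
      refine ContinuousAt.div (by fun_prop) (by fun_prop) ?_
      simpa using ht.ne'
    exact this.eventually_lt_const (by simpa using hδ₁)
  have h4 : ∀ᶠ ε : ℝ in 𝓝[>] 0, (1 + ε < R ∧ 0 < (1 + ε) * t - ε * a ∧
      -(ε * b) / ((1 + ε) * t - ε * a) < δ₁) ∧ 0 < ε :=
    ((h1.and (h2.and h3)).filter_mono nhdsWithin_le_nhds).and self_mem_nhdsWithin
  obtain ⟨ε, ⟨h5, h6, h7⟩, h8⟩ := h4.exists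
  refine ⟨ε, h8, h5.le, h6, ?_, h7⟩
  have : 0 < -(ε * b) := by nlinarith
  exact div_pos this h6

/-- **W2.** -/
theorem cutK : CutKStmt := by
  intro E _ _ _ K L hK hL hR u e q δ₀ α β hli hδ₀ h hq hqK hqe hβ
  obtain ⟨w, e', η, hη, hη0, hw, he, hwM, hn, hrK, hrL⟩ := exists_cut hK hK hL hδ₀ h
  set S : ℕ → Submodule ℝ E := fun j => Submodule.span ℝ {w j, e' j} with hSdef
  set P : Submodule ℝ E := Submodule.span ℝ {u, e} with hPdef
  have hS : PConv S P := pconv_pair hw he hli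
  have huK : u ∈ Dir K := by
    have := (h 0 (by simpa using hδ₀)).1
    simpa using this
  have huP : u ∈ P := Submodule.subset_span (by simp)
  have heP : e ∈ P := Submodule.subset_span (by simp)
  have hqP : q ∈ P := by
    rw [hqe]; exact P.add_mem (P.smul_mem _ huP) (P.smul_mem _ heP)
  have hwS : ∀ j, w j ∈ S j := fun j => Submodule.subset_span (by simp)
  have hqL : q ∈ Lim L S P := interior_sub_Lim hS ⟨hq, hqP⟩
  have huL : u ∈ Lim K S P :=
    mem_Lim_of_tendsto huK huP (Eventually.of_forall fun j => ⟨hwM j, hwS j⟩) hw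
  have hhom : ∀ᶠ j in atTop, Hom K L (S j) (ctr K L (S j)) (rat K L (S j)) := by
    filter_upwards [finrank_pair hw he hli, hqL.2.2 1 one_pos] with j hj1 hj2
    obtain ⟨z, hz, -⟩ := hj2
    exact ctr_spec (hR (S j) hj1 (hrK j) (hrL j) ⟨w j, hwM j, hwS j⟩ ⟨z, hz⟩)
  obtain ⟨φ, x', l', hφ, hx, hl, hl', hG⟩ := exists_limit hK hL hS hhom ⟨u, huL⟩ ⟨q, hqL⟩
  have hu1 : u ∈ Lim K (S ∘ φ) P := Lim_comp hφ huL
  have hq2 : q ∈ Lim L (S ∘ φ) P := Lim_comp hφ hqL
  have hq1 : q ∉ Lim K (S ∘ φ) P := fun h1 => hqK h1.1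
  have hx0 : x' ≠ 0 := hG.ne_zero hK hL hq2 hq1
  have hx1 : -x' ∉ Lim K (S ∘ φ) P := hG.neg_notMem hK hL hq2 hq1
  obtain ⟨a, b, hab⟩ := Submodule.mem_span_pair.1 hG.mem
  have hhomφ : ∀ᶠ j in atTop, Hom K L (S (φ j)) (ctr K L (S (φ j))) (rat K L (S (φ j))) :=
    hφ.tendsto_atTop.eventually hhom
  have hC : CutData K u e a b (w ∘ φ) (e' ∘ φ) (fun j => ctr K L (S (φ j))) (η ∘ φ) := by
    refine ⟨hli, hw.comp hφ.tendsto_atTop, he.comp hφ.tendsto_atTop, fun j => hη _,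
      hη0.comp hφ.tendsto_atTop, fun j => hwM _, fun j => hn _, hhomφ.mono fun j hj => hj.1,
      ?_, ?_, ?_⟩
    · rw [hab]; exact hx
    · filter_upwards [hhomφ] with j hj v hv hvS t ht hne
      exact ((hj.gHom hK hL).add_mem hK hL ⟨hv, hvS⟩ ht hne).1
    · filter_upwards [hhomφ] with j hj hne
      exact ((hj.gHom hK hL).x_mem hne).2.1
  have hb0 : b ≤ 0 := hC.c1
  have hb : b < 0 := by
    rcases lt_or_eq_of_le hb0 with hlt | heq
    · exact hlt
    exfalso
    have hxa : x' = a • u := by rw [← hab, heq, zero_smul, add_zero]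
    have ha : 0 < a := by
      rcases lt_trichotomy a 0 with h1 | h1 | h1
      · exfalso
        apply hx1
        have : -x' = (-a) • u := by rw [hxa, neg_smul]
        rw [this]
        exact Lim_smul hu1 (by linarith)
      · exact absurd (by rw [hxa, h1, zero_smul]) hx0
      · exact h1
    obtain ⟨ε, hε, hεL⟩ := (interior_subset hq).2
    have hεP : ε • q ∈ P := P.smul_mem _ hqP
    have h1 := (hG.iff (ε • q) hεP).2 (Or.inr ⟨hεL, Lim_smul hq2 hε⟩)
    have h2 : x' + l' • ε • q = (a + l' * ε * α) • u + (l' * ε * β) • e := by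
      rw [hxa, hqe]; module
    have h3 : x' + l' • ε • q ≠ 0 := by
      rw [h2]; exact li_coord hli (by positivity)
    have h4 := (h1.resolve_left h3).2
    obtain ⟨v, hv, hvl⟩ := exists_seq_of_mem_Lim h4
    rw [h2] at hvl
    exact hC.c2 heq ha (by positivity) hv hvl
  -- the directions `u + δ e` are not in the limit
  have hδ : ∀ δ : ℝ, 0 < δ → δ < |b| / (|a| + 1) → u + δ • e ∉ Lim K (S ∘ φ) P := by
    intro δ h1 h2 h3
    obtain ⟨v, hv, hvl⟩ := exists_seq_of_mem_Lim h3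
    refine hC.c3 hb h1 ?_ hv hvl
    rw [lt_div_iff₀ (by positivity)] at h2
    have h4 : -(δ * a) ≤ δ * |a| := by
      have := neg_abs_le a
      nlinarith
    have h5 : |b| = -b := abs_of_neg hb
    nlinarith
  have hδ₁ : 0 < |b| / (|a| + 1) := by
    have := abs_pos.2 hb.ne
    positivity
  refine ⟨-x', rad K u, l'⁻¹, P.neg_mem hG.mem, ?_, hK.rad_pos huK, inv_pos.2 hl', ?_⟩
  · intro s hs
    have : (s + a) • u + b • e = 0 := by
      have : (s + a) • u + b • e = s • u + (a • u + b • e) := by module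
      rw [this, hab, ← hs]; abel
    exact li_coord hli hb.ne this
  intro t ht0 ht1
  have htK : t • u ∈ K := (hK.smul_mem huK.1 ht0.le).2 ht1.le
  have htD : t • u ∈ Lim K (S ∘ φ) P := Lim_smul hu1 ht0
  set p : E := l'⁻¹ • (t • u - x') with hp
  have hlp : l' • p = t • u - x' := by
    rw [hp, smul_smul, mul_inv_cancel₀ hl'.ne', one_smul]
  have hpP : p ∈ P := P.smul_mem _ (P.sub_mem (P.smul_mem _ huP) hG.mem)
  have hp0 : p ≠ 0 := by
    intro h0
    rw [h0, smul_zero] at hlp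
    have : (t - a) • u + (-b) • e = 0 := by
      have : (t - a) • u + (-b) • e = t • u - (a • u + b • e) := by module
      rw [this, hab, ← hlp]
    exact li_coord hli (neg_ne_zero.2 hb.ne) this
  have h1 := (hG.iff p hpP).1 (Or.inr (by rw [hlp]; simpa using ⟨htK, htD⟩))
  obtain ⟨hpL, hpD⟩ := h1.resolve_left hp0
  have hrad : rad L p = 1 := by
    apply le_antisymm _ ((hL.mem_iff hp0).1 hpL)
    by_contra hcon
    push Not at hcon
    obtain ⟨ε, hε, hε1, hε2, hε3, hε4⟩ := exists_small (t := t) (a := a) (b := b) ht0 hcon hδ₁ hb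
    have hL1 : (1 + ε) • p ∈ L := (hL.smul_mem hp0 (by linarith)).2 hε1
    have hD1 : (1 + ε) • p ∈ Lim L (S ∘ φ) P := Lim_smul hpD (by linarith)
    have h2 := (hG.iff _ (P.smul_mem (1 + ε) hpP)).2 (Or.inr ⟨hL1, hD1⟩)
    have h3 : x' + l' • (1 + ε) • p = ((1 + ε) * t - ε * a) •
        (u + (-(ε * b) / ((1 + ε) * t - ε * a)) • e) := by
      have e1 : ((1 + ε) * t - ε * a) • (u + (-(ε * b) / ((1 + ε) * t - ε * a)) • e) =
          ((1 + ε) * t - ε * a) • u + (-(ε * b)) • e := by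
        rw [smul_add, smul_smul ((1 + ε) * t - ε * a) _ e]
        congr 2
        field_simp
      have e2 : x' + l' • (1 + ε) • p = x' + (1 + ε) • (l' • p) := by
        rw [smul_comm]
      rw [e1, e2, hlp, ← hab]
      module
    have h4 : u + (-(ε * b) / ((1 + ε) * t - ε * a)) • e ≠ 0 := by
      have := li_coord hli (s := 1) hε3.ne'
      rwa [one_smul] at this
    have h5 : x' + l' • (1 + ε) • p ≠ 0 := by
      rw [h3]; exact smul_ne_zero hε2.ne' h4
    have h6 := (h2.resolve_left h5).2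
    rw [h3] at h6
    have h7 := Lim_smul h6 (inv_pos.2 hε2)
    rw [smul_smul, inv_mul_cancel₀ hε2.ne', one_smul] at h7
    exact hδ _ hε3 hε4 h7
  have hy : -x' + t • u = l' • p := by rw [hlp]; abel
  rw [hy]
  refine ⟨(smul_mem_Dir hl').2 hpD.1, ?_⟩
  rw [rad_smul hl', hrad, one_div]

end Pool.Agent.H11.SB
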