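import Pool.Agent.H11.SB.W2

/-!
# MP_bd4439_gt, module W3: cut lemma for `L`
-/

namespace Pool.Agent.H11.SB

open Set Filter Topology Pool.Agent.H63.SB
open scoped RealInnerProductSpace

/-- **W3.** -/
theorem cutL : CutLStmt := by
  intro E _ _ _ K L hK hL hR u e q δ₀ α β hli hδ₀ h hKP huKI hq hqK hqe hβ
  obtain ⟨w, e', η, hη, hη0, hw, he, hwM, hn, hrK, hrL⟩ := exists_cut hL hK hL hδ₀ h
  set S : ℕ → Submodule ℝ E := fun j => Submodule.span ℝ {w j, e' j} with hSdef
  set P : Submodule ℝ E := Submodule.span ℝ {u, e} with hPdef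
  have hS : PConv S P := pconv_pair hw he hli
  have huL : u ∈ Dir L := by
    have := (h 0 (by simpa using hδ₀)).1
    simpa using this
  have huP : u ∈ P := Submodule.subset_span (by simp)
  have heP : e ∈ P := Submodule.subset_span (by simp)
  have hqP : q ∈ P := by
    rw [hqe]; exact P.add_mem (P.smul_mem _ huP) (P.smul_mem _ heP)
  have hwS : ∀ j, w j ∈ S j := fun j => Submodule.subset_span (by simp)
  have hqL : q ∈ Lim L S P := interior_sub_Lim hS ⟨hq, hqP⟩
  have huL' : u ∈ Lim L S P :=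
    mem_Lim_of_tendsto huL huP (Eventually.of_forall fun j => ⟨hwM j, hwS j⟩) hw
  obtain ⟨z₀, hz₀⟩ := hKP
  have hz₀L : z₀ ∈ Lim K S P := interior_sub_Lim hS hz₀
  have hhom : ∀ᶠ j in atTop, Hom K L (S j) (ctr K L (S j)) (rat K L (S j)) := by
    filter_upwards [finrank_pair hw he hli, hz₀L.2.2 1 one_pos] with j hj1 hj2
    obtain ⟨z, hz, -⟩ := hj2
    exact ctr_spec (hR (S j) hj1 (hrK j) (hrL j) ⟨z, hz⟩ ⟨w j, hwM j, hwS j⟩)
  obtain ⟨φ, x', l', hφ, hx, hl, hl', hG⟩ := exists_limit hK hL hS hhom ⟨z₀, hz₀L⟩ ⟨q, hqL⟩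
  have hu2 : u ∈ Lim L (S ∘ φ) P := Lim_comp hφ huL'
  have hq2 : q ∈ Lim L (S ∘ φ) P := Lim_comp hφ hqL
  have hq1 : q ∉ Lim K (S ∘ φ) P := fun h1 => hqK h1.1
  have hx0 : x' ≠ 0 := hG.ne_zero hK hL hq2 hq1
  have hx1 : -x' ∉ Lim K (S ∘ φ) P := hG.neg_notMem hK hL hq2 hq1
  obtain ⟨a, b, hab⟩ := Submodule.mem_span_pair.1 (P.neg_mem hG.mem)
  have hxab : x' = (-a) • u + (-b) • e := by
    have : x' = -(-x') := by rw [neg_neg]
    rw [this, ← hab]; module
  have hhomφ : ∀ᶠ j in atTop, Hom K L (S (φ j)) (ctr K L (S (φ j))) (rat K L (S (φ j))) :=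
    hφ.tendsto_atTop.eventually hhom
  have hC : CutData L u e a b (w ∘ φ) (e' ∘ φ) (fun j => -ctr K L (S (φ j))) (η ∘ φ) := by
    refine ⟨hli, hw.comp hφ.tendsto_atTop, he.comp hφ.tendsto_atTop, fun j => hη _,
      hη0.comp hφ.tendsto_atTop, fun j => hwM _, fun j => hn _,
      hhomφ.mono fun j hj => Submodule.neg_mem _ hj.1, ?_, ?_, ?_⟩
    · rw [hab]; exact hx.neg
    · filter_upwards [hhomφ] with j hj v hv hvS t ht hne
      have e1 : v + t • -ctr K L (S (φ j)) = v - t • ctr K L (S (φ j)) := by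
        rw [smul_neg, sub_eq_add_neg]
      rw [e1] at hne ⊢
      exact ((hj.gHom hK hL).sub_mem hK hL ⟨hv, hvS⟩ ht hne).1
    · filter_upwards [hhomφ] with j hj hne
      exact ((hj.gHom hK hL).neg_mem (neg_ne_zero.1 hne)).2.1
  have hb0 : b ≤ 0 := hC.c1
  have hb : b < 0 := by
    rcases lt_or_eq_of_le hb0 with hlt | heq
    · exact hlt
    exfalso
    have hxa : x' = (-a) • u := by rw [hxab, heq, neg_zero, zero_smul, add_zero]
    rcases lt_trichotomy a 0 with h1 | h1 | h1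
    · -- `x'` is a positive multiple of `u`
      have ha : 0 < -a := by linarith
      have h2 : u ∈ Lim K (S ∘ φ) P := by
        have h3 := (hG.x_mem hx0).2
        rw [hxa] at h3
        have h4 := Lim_smul h3 (inv_pos.2 ha)
        rwa [smul_smul, inv_mul_cancel₀ ha.ne', one_smul] at h4
      have huI : u ∈ interior (Dir K) := huKI h2.1
      obtain ⟨ε, hε, hεL⟩ := huL.2
      have h3 := (hG.iff (ε • u) (P.smul_mem _ huP)).2 (Or.inr ⟨hεL, Lim_smul hu2 hε⟩)
      have h4 : x' + l' • ε • u = (-a + l' * ε) • u := by rw [hxa]; module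
      have hpos : 0 < -a + l' * ε := by positivity
      have h5 : x' + l' • ε • u ≠ 0 := by rw [h4]; exact smul_ne_zero hpos.ne' huL.1
      have h6 := (h3.resolve_left h5).1
      rw [h4, hK.smul_mem huL.1 hpos.le] at h6
      have hpos2 : 0 < -a + l' * (ε / 2) := by positivity
      have h7 : x' + l' • (ε / 2) • u = (-a + l' * (ε / 2)) • u := by rw [hxa]; module
      have h8 : x' + l' • (ε / 2) • u ∈ interior K := by
        rw [h7]
        refine hK.mem_interior ((smul_mem_interior_Dir hpos2).2 huI) ?_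
        rw [rad_smul hpos2, lt_div_iff₀ hpos2, one_mul]
        have : 0 < l' * (ε / 2) := by positivity
        have : -a + l' * (ε / 2) < -a + l' * ε := by linarith
        linarith
      have h9 : Tendsto (fun j => ctr K L (S (φ j)) + rat K L (S (φ j)) • (ε / 2) •
          (w (φ j) + η (φ j) • e' (φ j))) atTop (𝓝 (x' + l' • (ε / 2) • (u + (0 : ℝ) • e))) := by
        refine hx.add (hl.smul (Tendsto.const_smul ?_ (ε / 2)))
        exact (hw.comp hφ.tendsto_atTop).add
          ((hη0.comp hφ.tendsto_atTop).smul (he.comp hφ.tendsto_atTop))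
      rw [zero_smul, add_zero] at h9
      have h10 := h9.eventually_mem (isOpen_interior.mem_nhds h8)
      obtain ⟨j, hj1, hj2, hj3⟩ := (h10.and (hhomφ.and hC.ne_zero)).exists
      have hnS : (ε / 2) • (w (φ j) + η (φ j) • e' (φ j)) ∈ S (φ j) := by
        refine Submodule.smul_mem _ _ (Submodule.add_mem _ (hwS _) (Submodule.smul_mem _ _ ?_))
        exact Submodule.subset_span (by simp)
      have hj4 := (hj2.2.2 _ hnS).1 (interior_subset hj1)
      have hj3' : w (φ j) + η (φ j) • e' (φ j) ≠ 0 := hj3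
      exact hn (φ j) ⟨hj3', ε / 2, by positivity, hj4⟩
    · exact hx0 (by rw [hxa, h1, neg_zero, zero_smul])
    · obtain ⟨v, hv, hvl⟩ := exists_seq_of_mem_Lim hq2
      rw [hqe] at hvl
      exact hC.c2 heq h1 hβ hv hvl
  have hδ : ∀ δ : ℝ, 0 < δ → δ < |b| / (|a| + 1) → u + δ • e ∉ Lim L (S ∘ φ) P := by
    intro δ h1 h2 h3
    obtain ⟨v, hv, hvl⟩ := exists_seq_of_mem_Lim h3
    refine hC.c3 hb h1 ?_ hv hvl
    rw [lt_div_iff₀ (by positivity)] at h2
    have h4 : -(δ * a) ≤ δ * |a| := by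
      have := neg_abs_le a
      nlinarith
    have h5 : |b| = -b := abs_of_neg hb
    nlinarith
  have hδ₁ : 0 < |b| / (|a| + 1) := by
    have := abs_pos.2 hb.ne
    positivity
  refine ⟨x', l' * rad L u, 1, hG.mem, ?_, mul_pos hl' (hL.rad_pos huL), one_pos, ?_⟩
  · intro s hs
    have : (-a - s) • u + (-b) • e = 0 := by
      have : (-a - s) • u + (-b) • e = ((-a) • u + (-b) • e) - s • u := by module
      rw [this, ← hxab, ← hs, sub_self]
    exact li_coord hli (neg_ne_zero.2 hb.ne) this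
  intro t ht0 ht1
  have ht' : 0 < t / l' := div_pos ht0 hl'
  have ht'' : t / l' ≤ rad L u := by
    rw [div_le_iff₀ hl', mul_comm]; exact ht1.le
  have htL : (t / l') • u ∈ L := (hL.smul_mem huL.1 ht'.le).2 ht''
  have htD : (t / l') • u ∈ Lim L (S ∘ φ) P := Lim_smul hu2 ht'
  have hlt : l' • (t / l') • u = t • u := by
    rw [smul_smul, mul_div_cancel₀ _ hl'.ne']
  have h1 := (hG.iff _ (P.smul_mem (t / l') huP)).2 (Or.inr ⟨htL, htD⟩)
  rw [hlt] at h1
  have hz0 : x' + t • u ≠ 0 := by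
    have : x' + t • u = (-a + t) • u + (-b) • e := by rw [hxab]; module
    rw [this]
    exact li_coord hli (neg_ne_zero.2 hb.ne)
  obtain ⟨hzK, hzD⟩ := h1.resolve_left hz0
  refine ⟨hzD.1, ?_⟩
  apply le_antisymm _ ((hK.mem_iff hz0).1 hzK)
  by_contra hcon
  push Not at hcon
  obtain ⟨ε, hε, hε1, hε2, hε3, hε4⟩ := exists_small (t := t) (a := a) (b := b) ht0 hcon hδ₁ hb
  have hK1 : (1 + ε) • (x' + t • u) ∈ K := (hK.smul_mem hz0 (by linarith)).2 hε1
  have hD1 : (1 + ε) • (x' + t • u) ∈ Lim K (S ∘ φ) P := Lim_smul hzD (by linarith)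
  set p : E := l'⁻¹ • ((1 + ε) • (x' + t • u) - x') with hp
  have hlp : l' • p = (1 + ε) • (x' + t • u) - x' := by
    rw [hp, smul_smul, mul_inv_cancel₀ hl'.ne', one_smul]
  have hpP : p ∈ P := P.smul_mem _ (P.sub_mem (P.smul_mem _ (P.add_mem hG.mem
    (P.smul_mem _ huP))) hG.mem)
  have h2 := (hG.iff p hpP).1 (Or.inr (by rw [hlp, add_sub_cancel]; exact ⟨hK1, hD1⟩))
  have h4 : u + (-(ε * b) / ((1 + ε) * t - ε * a)) • e ≠ 0 := by
    have := li_coord hli (s := 1) hε3.ne'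
    rwa [one_smul] at this
  have h3 : l' • p = ((1 + ε) * t - ε * a) •
      (u + (-(ε * b) / ((1 + ε) * t - ε * a)) • e) := by
    have e1 : ((1 + ε) * t - ε * a) • (u + (-(ε * b) / ((1 + ε) * t - ε * a)) • e) =
        ((1 + ε) * t - ε * a) • u + (-(ε * b)) • e := by
      rw [smul_add, smul_smul ((1 + ε) * t - ε * a) _ e]
      congr 2
      field_simp
    rw [e1, hlp, hxab]
    module
  have hp0 : p ≠ 0 := by
    intro h0
    rw [h0, smul_zero] at h3
    exact smul_ne_zero hε2.ne' h4 h3.symm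
  have hpD := (h2.resolve_left hp0).2
  have h7 := Lim_smul hpD (mul_pos (inv_pos.2 hε2) hl')
  rw [mul_smul, h3, smul_smul, inv_mul_cancel₀ hε2.ne', one_smul] at h7
  exact hδ _ hε3 hε4 h7

end Pool.Agent.H11.SB
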