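import Pool.Agent.H11.SB.W1
import Pool.Agent.H11.SB.W3

/-!
# MP_bd4439_gt, module W4: planes through a point of `interior (Dir L) \ Dir K` are regular
-/

namespace Pool.Agent.H11.SB

open Set Filter Topology Pool.Agent.H63.SB
open scoped RealInnerProductSpace

section

variable {E : Type} [NormedAddCommGroup E] [InnerProductSpace ℝ E]

theorem li_pair_iff {a b : E} : LinearIndependent ℝ ![a, b] ↔
    ∀ s t : ℝ, s • a + t • b = 0 → s = 0 ∧ t = 0 := LinearIndependent.pair_iff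

theorem exists_smul_of_not_li {a b : E} (h : ¬ LinearIndependent ℝ ![a, b]) (ha : a ≠ 0)
    (hb : b ≠ 0) : ∃ c : ℝ, c ≠ 0 ∧ a = c • b := by
  rw [li_pair_iff] at h
  push Not at h
  obtain ⟨s, t, hst, hne⟩ := h
  have hs : s ≠ 0 := by
    intro h0
    rw [h0, zero_smul, zero_add] at hst
    exact hne h0 ((smul_eq_zero.1 hst).resolve_right hb)
  have ht : t ≠ 0 := by
    intro h0
    rw [h0, zero_smul, add_zero] at hst
    exact hs ((smul_eq_zero.1 hst).resolve_right ha)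
  refine ⟨-(s⁻¹ * t), neg_ne_zero.2 (mul_ne_zero (inv_ne_zero hs) ht), ?_⟩
  have h1 : s⁻¹ • (s • a + t • b) = 0 := by rw [hst, smul_zero]
  rw [smul_add, smul_smul, smul_smul, inv_mul_cancel₀ hs, one_smul] at h1
  rw [neg_smul]
  exact eq_neg_of_add_eq_zero_left h1

theorem span_eq_of_li [FiniteDimensional ℝ E] {S : Submodule ℝ E}
    (hS : Module.finrank ℝ S = 2) {a b : E} (ha : a ∈ S) (hb : b ∈ S)
    (hli : LinearIndependent ℝ ![a, b]) : Submodule.span ℝ {a, b} = S := by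
  apply Submodule.eq_of_le_of_finrank_eq
  · rw [Submodule.span_le]
    rintro z hz
    rcases hz with rfl | hz
    · exact ha
    · rw [mem_singleton_iff] at hz
      subst hz
      exact hb
  · rw [finrank_span_pair hli, hS]

theorem seg_neg {M : Set E} {u e : E} (h : Seg M u (-e)) : Seg M u e := by
  obtain ⟨y, c, ρ, hy, h1, h2, h3, h4⟩ := h
  refine ⟨y, c, ρ, ?_, h1, h2, h3, h4⟩
  obtain ⟨s, t, hst⟩ := Submodule.mem_span_pair.1 hy
  exact Submodule.mem_span_pair.2 ⟨s, -t, by rw [← hst]; simp⟩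

/-- The counting argument. -/
theorem nba_aux [FiniteDimensional ℝ E] {M : Set E} {S : Submodule ℝ E}
    (hS : Module.finrank ℝ S = 2) {a b q : E} (ha : a ∈ S) (hb : b ∈ S)
    (hli : LinearIndependent ℝ ![a, b]) (hq : q ∈ S) (hq0 : q ≠ 0)
    (hseg : ∀ (u e : E) (δ₀ α β : ℝ), LinearIndependent ℝ ![u, e] → 0 < δ₀ →
      (∀ δ : ℝ, |δ| < δ₀ → ∃ s t : ℝ, 0 < s ∧ 0 < t ∧ u + δ • e = s • a + t • b) →
      u ∈ S → e ∈ S → q = α • u + β • e → 0 < β → Seg M u e) : False := by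
  set e : E := b - a with he
  have heS : e ∈ S := S.sub_mem hb ha
  have hli' : LinearIndependent ℝ ![a, e] := by
    rw [li_pair_iff] at hli ⊢
    intro s t hst
    have h1 : (s - t) • a + t • b = 0 := by
      rw [← hst, he]; module
    obtain ⟨h2, h3⟩ := hli _ _ h1
    exact ⟨by linarith, h3⟩
  have hC1 := segCount E M a e hli'
  have hC2 : {τ : ℝ | ∃ α : ℝ, q = α • (a + τ • e)}.Countable := by
    apply Set.Subsingleton.countable
    rintro τ ⟨α, hα⟩ τ' ⟨α', hα'⟩
    rw [li_pair_iff] at hli'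
    have h1 : (α - α') • a + (α * τ - α' * τ') • e = 0 := by
      have : (α - α') • a + (α * τ - α' * τ') • e = α • (a + τ • e) - α' • (a + τ' • e) := by
        module
      rw [this, ← hα, ← hα', sub_self]
    obtain ⟨h2, h3⟩ := hli' _ _ h1
    have h4 : α = α' := by linarith
    have h5 : α ≠ 0 := by
      intro h0
      apply hq0
      rw [hα, h0, zero_smul]
    rw [← h4] at h3
    have h6 : α * (τ - τ') = 0 := by rw [← h3]; ring
    exact sub_eq_zero.1 ((mul_eq_zero.1 h6).resolve_left h5)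
  have hsub : Ioo (0 : ℝ) 1 ⊆ {τ : ℝ | Seg M (a + τ • e) e} ∪
      {τ : ℝ | ∃ α : ℝ, q = α • (a + τ • e)} := by
    rintro τ ⟨hτ0, hτ1⟩
    rw [← span_eq_of_li hS ha heS hli'] at hq
    obtain ⟨α, γ, hαγ⟩ := Submodule.mem_span_pair.1 hq
    have hqe : q = α • (a + τ • e) + (γ - α * τ) • e := by rw [← hαγ]; module
    have hliu : LinearIndependent ℝ ![a + τ • e, e] := by
      rw [li_pair_iff] at hli' ⊢
      intro s t hst
      have h1 : s • a + (s * τ + t) • e = 0 := by rw [← hst]; module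
      obtain ⟨h2, h3⟩ := hli' _ _ h1
      rw [h2, zero_mul, zero_add] at h3
      exact ⟨h2, h3⟩
    have hliu' : LinearIndependent ℝ ![a + τ • e, -e] := by
      rw [li_pair_iff] at hliu ⊢
      intro s t hst
      have h1 : s • (a + τ • e) + (-t) • e = 0 := by rw [← hst]; module
      obtain ⟨h2, h3⟩ := hliu _ _ h1
      exact ⟨h2, by linarith⟩
    have huS : a + τ • e ∈ S := S.add_mem ha (S.smul_mem _ heS)
    have hmin : 0 < min τ (1 - τ) := lt_min hτ0 (by linarith)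
    rcases lt_trichotomy (γ - α * τ) 0 with hlt | heq | hgt
    · left
      refine seg_neg (hseg _ (-e) (min τ (1 - τ)) α (-(γ - α * τ)) hliu' hmin ?_ huS
        (S.neg_mem heS) (by rw [hqe]; module) (by linarith))
      intro δ hδ
      have h1 := hδ.trans_le (min_le_left _ _)
      have h2 := hδ.trans_le (min_le_right _ _)
      rw [abs_lt] at h1 h2
      refine ⟨1 - τ + δ, τ - δ, by linarith, by linarith, ?_⟩
      rw [he]; module
    · right
      refine ⟨α, ?_⟩
      rw [heq, zero_smul, add_zero] at hqe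
      exact hqe
    · left
      refine hseg _ e (min τ (1 - τ)) α (γ - α * τ) hliu hmin ?_ huS heS hqe hgt
      intro δ hδ
      have h1 := hδ.trans_le (min_le_left _ _)
      have h2 := hδ.trans_le (min_le_right _ _)
      rw [abs_lt] at h1 h2
      refine ⟨1 - τ - δ, τ + δ, by linarith, by linarith, ?_⟩
      rw [he]; module
  have hcount : (Ioo (0 : ℝ) 1).Countable := (hC1.union hC2).mono hsub
  have h1 := hcount.le_aleph0
  rw [Cardinal.mk_Ioo_real zero_lt_one] at h1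
  exact absurd h1 (not_le.2 Cardinal.aleph0_lt_continuum)

theorem closure_smul_mem {M : Set E} {S : Submodule ℝ E} {v : E} {c : ℝ} (hc : 0 < c)
    (h : v ∈ closure (interior (Dir M) ∩ (S : Set E))) :
    c • v ∈ closure (interior (Dir M) ∩ (S : Set E)) := by
  refine map_mem_closure (f := fun z : E => c • z) (continuous_const_smul c) h ?_
  rintro z ⟨h1, h2⟩
  exact ⟨(smul_mem_interior_Dir hc).2 h1, S.smul_mem _ h2⟩

/-- An arc of directions next to `a` gives interior directions next to `a`. -/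
theorem closure_arc {M : Set E} {S : Submodule ℝ E} {a y : E} {τ₀ : ℝ} (hτ₀ : 0 < τ₀)
    (nba : ∀ b : E, b ∈ S → LinearIndependent ℝ ![a, b] →
      (∀ s t : ℝ, 0 < s → 0 < t → s • a + t • b ∈ Dir M) →
      ∃ s t : ℝ, 0 < s ∧ 0 < t ∧ s • a + t • b ∈ interior (Dir M))
    (ha : a ∈ S) (hy : y ∈ S) (hli : LinearIndependent ℝ ![a, y])
    (h : ∀ τ : ℝ, 0 < τ → τ < τ₀ → a + τ • y ∈ Dir M) :
    a ∈ closure (interior (Dir M) ∩ (S : Set E)) := by
  rw [Metric.mem_closure_iff]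
  intro ε hε
  have hτ₁ : 0 < min (τ₀ / 2) (ε / (‖y‖ + 1)) := by positivity
  set τ₁ := min (τ₀ / 2) (ε / (‖y‖ + 1)) with hτ₁def
  have h1 : τ₁ < τ₀ := (min_le_left _ _).trans_lt (by linarith)
  have h2 : τ₁ * (‖y‖ + 1) ≤ ε := by
    rw [← le_div_iff₀ (by positivity)]
    exact min_le_right _ _
  have hcomb : ∀ s t : ℝ, 0 < s → 0 < t → s • a + t • (a + τ₁ • y) =
      (s + t) • (a + (t * τ₁ / (s + t)) • y) := by
    intro s t hs ht
    rw [smul_add (s + t), smul_smul (s + t), mul_div_cancel₀ _ (by positivity)]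
    module
  have hlt : ∀ s t : ℝ, 0 < s → 0 < t → 0 < t * τ₁ / (s + t) ∧ t * τ₁ / (s + t) < τ₁ := by
    intro s t hs ht
    refine ⟨by positivity, ?_⟩
    rw [div_lt_iff₀ (by positivity)]
    nlinarith
  have hliA : LinearIndependent ℝ ![a, a + τ₁ • y] := by
    rw [li_pair_iff] at hli ⊢
    intro s t hst
    have h3 : (s + t) • a + (t * τ₁) • y = 0 := by rw [← hst]; module
    obtain ⟨h4, h5⟩ := hli _ _ h3
    have h6 : t = 0 := (mul_eq_zero.1 h5).resolve_right hτ₁.ne'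
    exact ⟨by rw [h6, add_zero] at h4; exact h4, h6⟩
  have hmemA : ∀ s t : ℝ, 0 < s → 0 < t → s • a + t • (a + τ₁ • y) ∈ Dir M := by
    intro s t hs ht
    rw [hcomb s t hs ht, smul_mem_Dir (by positivity)]
    obtain ⟨h3, h4⟩ := hlt s t hs ht
    exact h _ h3 (h4.trans h1)
  obtain ⟨s, t, hs, ht, hst⟩ := nba (a + τ₁ • y) (S.add_mem ha (S.smul_mem _ hy)) hliA hmemA
  rw [hcomb s t hs ht, smul_mem_interior_Dir (by positivity)] at hst
  obtain ⟨h3, h4⟩ := hlt s t hs ht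
  refine ⟨_, ⟨hst, S.add_mem ha (S.smul_mem _ hy)⟩, ?_⟩
  rw [dist_eq_norm, sub_add_cancel_left, norm_neg, norm_smul, Real.norm_eq_abs, abs_of_pos h3]
  calc t * τ₁ / (s + t) * ‖y‖ ≤ t * τ₁ / (s + t) * (‖y‖ + 1) := by gcongr; linarith
    _ < τ₁ * (‖y‖ + 1) := by
        have : 0 < ‖y‖ + 1 := by positivity
        exact mul_lt_mul_of_pos_right h4 this
    _ ≤ ε := h2

end

section Main

variable {E : Type} [NormedAddCommGroup E] [InnerProductSpace ℝ E] [FiniteDimensional ℝ E]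
variable {K L : Set E}

theorem nbaK (hK : StarB K) (hL : StarB L) (hR : RegHom K L 2) {q : E}
    (hq : q ∈ interior (Dir L)) (hqK : q ∉ Dir K) {S : Submodule ℝ E}
    (hS : Module.finrank ℝ S = 2) (hqS : q ∈ S) {a b : E} (ha : a ∈ S) (hb : b ∈ S)
    (hli : LinearIndependent ℝ ![a, b])
    (h : ∀ s t : ℝ, 0 < s → 0 < t → s • a + t • b ∈ Dir K) :
    ∃ s t : ℝ, 0 < s ∧ 0 < t ∧ s • a + t • b ∈ interior (Dir K) := by
  by_contra hcon
  push Not at hcon
  refine nba_aux (M := L) hS ha hb hli hqS (interior_subset hq).1 ?_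
  intro u e δ₀ α β hue hδ₀ hu _ _ hqe hβ
  refine cutK E K L hK hL hR u e q δ₀ α β hue hδ₀ ?_ hq hqK hqe hβ
  intro δ hδ
  obtain ⟨s, t, hs, ht, hst⟩ := hu δ hδ
  rw [hst]
  exact ⟨h s t hs ht, hcon s t hs ht⟩

theorem nbaL (hK : StarB K) (hL : StarB L) (hR : RegHom K L 2) {q : E}
    (hq : q ∈ interior (Dir L)) (hqK : q ∉ Dir K) {S : Submodule ℝ E}
    (hS : Module.finrank ℝ S = 2) (hqS : q ∈ S) (hne : (interior (Dir K) ∩ (S : Set E)).Nonempty)
    {a b : E} (ha : a ∈ S) (hb : b ∈ S)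
    (hli : LinearIndependent ℝ ![a, b])
    (h : ∀ s t : ℝ, 0 < s → 0 < t → s • a + t • b ∈ Dir L)
    (h' : ∀ s t : ℝ, 0 < s → 0 < t → s • a + t • b ∈ Dir K → s • a + t • b ∈ interior (Dir K)) :
    ∃ s t : ℝ, 0 < s ∧ 0 < t ∧ s • a + t • b ∈ interior (Dir L) := by
  by_contra hcon
  push Not at hcon
  refine nba_aux (M := K) hS ha hb hli hqS (interior_subset hq).1 ?_
  intro u e δ₀ α β hue hδ₀ hu huS heS hqe hβ
  refine cutL E K L hK hL hR u e q δ₀ α β hue hδ₀ ?_ ?_ ?_ hq hqK hqe hβ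
  · intro δ hδ
    obtain ⟨s, t, hs, ht, hst⟩ := hu δ hδ
    rw [hst]
    exact ⟨h s t hs ht, hcon s t hs ht⟩
  · rw [span_eq_of_li hS huS heS hue]
    exact hne
  · intro huK
    obtain ⟨s, t, hs, ht, hst⟩ := hu 0 (by rw [abs_zero]; exact hδ₀)
    rw [zero_smul, add_zero] at hst
    rw [hst] at huK ⊢
    exact h' s t hs ht huK

/-- The full form of `nbaL`, for a plane which is regular for `K`. -/
theorem nbaL' (hK : StarB K) (hL : StarB L) (hR : RegHom K L 2) {q : E}
    (hq : q ∈ interior (Dir L)) (hqK : q ∉ Dir K) {S : Submodule ℝ E}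
    (hS : Module.finrank ℝ S = 2) (hqS : q ∈ S) (hne : (interior (Dir K) ∩ (S : Set E)).Nonempty)
    (hreg : Reg K S) {a b : E} (ha : a ∈ S) (hb : b ∈ S)
    (hli : LinearIndependent ℝ ![a, b])
    (h : ∀ s t : ℝ, 0 < s → 0 < t → s • a + t • b ∈ Dir L) :
    ∃ s t : ℝ, 0 < s ∧ 0 < t ∧ s • a + t • b ∈ interior (Dir L) := by
  by_cases hmeet : ∃ s t : ℝ, 0 < s ∧ 0 < t ∧ s • a + t • b ∈ Dir K
  · -- an interior direction of `K` in the arc
    obtain ⟨s₀, t₀, hs₀, ht₀, hz₀⟩ := hmeet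
    have hz₀S : s₀ • a + t₀ • b ∈ S := S.add_mem (S.smul_mem _ ha) (S.smul_mem _ hb)
    have hcl := hreg ⟨hz₀, hz₀S⟩
    rw [mem_closure_iff_seq_limit] at hcl
    obtain ⟨z, hz, hzl⟩ := hcl
    have hzS : ∀ᶠ n in atTop, z n ∈ Submodule.span ℝ {a, b} :=
      Eventually.of_forall fun n => by rw [span_eq_of_li hS ha hb hli]; exact (hz n).2
    obtain ⟨s, t, hst⟩ := exists_coord (a := fun _ => a) (b := fun _ => b) hzS
    obtain ⟨hs, ht⟩ := tendsto_coord (a := fun _ => a) (b := fun _ => b) tendsto_const_nhds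
      tendsto_const_nhds hzl hli hst
    obtain ⟨n, hn1, hn2, hn3⟩ := (hst.and ((hs.eventually_const_lt hs₀).and
      (ht.eventually_const_lt ht₀))).exists
    have hzI : z n ∈ interior (Dir K) := (hz n).1
    set s₁ := s n with hs₁
    set t₁ := t n with ht₁
    rw [hn1] at hzI
    -- a small segment inside `interior (Dir K)`
    have hcont : ContinuousAt (fun ρ : ℝ => (s₁ + ρ) • a + (t₁ - ρ) • b) 0 := by fun_prop
    have hev : ∀ᶠ ρ : ℝ in 𝓝 0, (s₁ + ρ) • a + (t₁ - ρ) • b ∈ interior (Dir K) := by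
      refine hcont.eventually_mem ?_
      simpa using isOpen_interior.mem_nhds hzI
    obtain ⟨r, hr, hball⟩ := Metric.eventually_nhds_iff_ball.1 hev
    have hρ : 0 < min (r / 2) (min (s₁ / 2) (t₁ / 2)) := by positivity
    set ρ := min (r / 2) (min (s₁ / 2) (t₁ / 2)) with hρdef
    have hρr : ρ < r := (min_le_left _ _).trans_lt (by linarith)
    have hρs : ρ < s₁ := ((min_le_right _ _).trans (min_le_left _ _)).trans_lt (by linarith)
    have hρt : ρ < t₁ := ((min_le_right _ _).trans (min_le_right _ _)).trans_lt (by linarith)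
    set a' : E := (s₁ + ρ) • a + (t₁ - ρ) • b with ha'
    set b' : E := (s₁ - ρ) • a + (t₁ + ρ) • b with hb'
    have ha'S : a' ∈ S := S.add_mem (S.smul_mem _ ha) (S.smul_mem _ hb)
    have hb'S : b' ∈ S := S.add_mem (S.smul_mem _ ha) (S.smul_mem _ hb)
    have hcomb : ∀ x y : ℝ, x • a' + y • b' = (x * (s₁ + ρ) + y * (s₁ - ρ)) • a +
        (x * (t₁ - ρ) + y * (t₁ + ρ)) • b := by
      intro x y; rw [ha', hb']; module
    have hli' : LinearIndependent ℝ ![a', b'] := by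
      rw [li_pair_iff] at hli ⊢
      intro x y hxy
      rw [hcomb] at hxy
      obtain ⟨h1, h2⟩ := hli _ _ hxy
      have h3 : 2 * ρ * (s₁ + t₁) * x = 0 := by
        linear_combination (t₁ + ρ) * h1 - (s₁ - ρ) * h2
      have h4 : 2 * ρ * (s₁ + t₁) * y = 0 := by
        linear_combination (s₁ + ρ) * h2 - (t₁ - ρ) * h1
      have h5 : 2 * ρ * (s₁ + t₁) ≠ 0 := by positivity
      exact ⟨(mul_eq_zero.1 h3).resolve_left h5, (mul_eq_zero.1 h4).resolve_left h5⟩
    have hpos : ∀ x y : ℝ, 0 < x → 0 < y → 0 < x * (s₁ + ρ) + y * (s₁ - ρ) ∧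
        0 < x * (t₁ - ρ) + y * (t₁ + ρ) := by
      intro x y hx hy
      have h1 : 0 < s₁ - ρ := by linarith
      have h2 : 0 < t₁ - ρ := by linarith
      exact ⟨by positivity, by positivity⟩
    have hg1 : ∀ x y : ℝ, 0 < x → 0 < y → x • a' + y • b' ∈ Dir L := by
      intro x y hx hy
      rw [hcomb]
      exact h _ _ (hpos x y hx hy).1 (hpos x y hx hy).2
    have hg2 : ∀ x y : ℝ, 0 < x → 0 < y → x • a' + y • b' ∈ Dir K →
        x • a' + y • b' ∈ interior (Dir K) := by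
      intro x y hx hy _
      have hxy : 0 < x + y := by positivity
      have h1 : x • a' + y • b' = (x + y) • ((s₁ + (x - y) / (x + y) * ρ) • a +
          (t₁ - (x - y) / (x + y) * ρ) • b) := by
        rw [hcomb, smul_add, smul_smul, smul_smul]
        congr 2
        · field_simp; ring
        · field_simp; ring
      rw [h1, smul_mem_interior_Dir hxy]
      apply hball
      rw [Metric.mem_ball, dist_zero_right, Real.norm_eq_abs, abs_mul, abs_of_pos hρ]
      have h2 : |(x - y) / (x + y)| ≤ 1 := by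
        rw [abs_div, abs_of_pos hxy, div_le_one hxy, abs_le]
        constructor <;> linarith
      calc |(x - y) / (x + y)| * ρ ≤ 1 * ρ := by gcongr
        _ < r := by rw [one_mul]; exact hρr
    obtain ⟨x, y, hx, hy, hxy⟩ := nbaL hK hL hR hq hqK hS hqS hne ha'S hb'S hli' hg1 hg2
    rw [hcomb] at hxy
    exact ⟨_, _, (hpos x y hx hy).1, (hpos x y hx hy).2, hxy⟩
  · push Not at hmeet
    exact nbaL hK hL hR hq hqK hS hqS hne ha hb hli h
      (fun s t hs ht h1 => absurd h1 (hmeet s t hs ht))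

/-- A limit homothety at `S` for which a given direction is a limit direction. -/
theorem exists_gHom (hK : StarB K) (hL : StarB L) (hR : RegHom K L 2) {q : E}
    (hq : q ∈ interior (Dir L)) {S : Submodule ℝ E}
    (hS : Module.finrank ℝ S = 2) (hqS : q ∈ S) {M : Set E} (hM : StarB M) {u₀ : E}
    (hu₀ : u₀ ∈ Dir M) (hu₀S : u₀ ∈ S)
    (hne : ∀ T : ℕ → Submodule ℝ E, PConv T S → u₀ ∈ Lim M T S → (Lim K T S).Nonempty) :
    ∃ (T : ℕ → Submodule ℝ E) (x : E) (l : ℝ), PConv T S ∧ u₀ ∈ Lim M T S ∧ 0 < l ∧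
      GHom K L S (Lim K T S) (Lim L T S) x l := by
  obtain ⟨v₀, hv₀S, hli, hSeq⟩ := exists_span_pair hS hu₀S hu₀.1
  have hstep : ∀ j : ℕ, ∃ w v : E, w ∈ interior (Dir M) ∧ dist w u₀ < 1 / ((j : ℝ) + 1) ∧
      dist v v₀ < 1 / ((j : ℝ) + 1) ∧ Reg K (Submodule.span ℝ {w, v}) ∧
      Reg L (Submodule.span ℝ {w, v}) := by
    intro j
    have hpos : 0 < 1 / ((j : ℝ) + 1) := by positivity
    obtain ⟨w, ⟨hw1, hw2⟩, v, hv, h1, h2⟩ := exists_reg_pair hK hL
      (O₁ := interior (Dir M) ∩ Metric.ball u₀ (1 / ((j : ℝ) + 1)))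
      (O₂ := Metric.ball v₀ (1 / ((j : ℝ) + 1)))
      (isOpen_interior.inter Metric.isOpen_ball) Metric.isOpen_ball
      (by
        obtain ⟨w, hw, hw'⟩ := hM.exists_interior_near hu₀ hpos
        exact ⟨w, hw, hw'⟩) ⟨v₀, Metric.mem_ball_self hpos⟩
    exact ⟨w, v, hw1, hw2, hv, h1, h2⟩
  choose w v hw hwd hvd hr1 hr2 using hstep
  have hlim0 : Tendsto (fun j : ℕ => 1 / ((j : ℝ) + 1)) atTop (𝓝 0) :=
    tendsto_one_div_add_atTop_nhds_zero_nat
  have hwl : Tendsto w atTop (𝓝 u₀) := by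
    rw [tendsto_iff_dist_tendsto_zero]
    exact squeeze_zero (fun j => dist_nonneg) (fun j => (hwd j).le) hlim0
  have hvl : Tendsto v atTop (𝓝 v₀) := by
    rw [tendsto_iff_dist_tendsto_zero]
    exact squeeze_zero (fun j => dist_nonneg) (fun j => (hvd j).le) hlim0
  set T : ℕ → Submodule ℝ E := fun j => Submodule.span ℝ {w j, v j} with hT
  have hTS : PConv T S := by
    rw [hSeq]; exact pconv_pair hwl hvl hli
  have hwT : ∀ j, w j ∈ T j := fun j => Submodule.subset_span (by simp)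
  have huL : u₀ ∈ Lim M T S := mem_Lim_of_tendsto hu₀ hu₀S
    (Eventually.of_forall fun j => ⟨interior_subset (hw j), hwT j⟩) hwl
  have hqL : q ∈ Lim L T S := interior_sub_Lim hTS ⟨hq, hqS⟩
  obtain ⟨z, hz⟩ := hne T hTS huL
  have hhom : ∀ᶠ j in atTop, Hom K L (T j) (ctr K L (T j)) (rat K L (T j)) := by
    filter_upwards [finrank_pair hwl hvl hli, hqL.2.2 1 one_pos, hz.2.2 1 one_pos] with
      j hj1 hj2 hj3
    obtain ⟨z1, hz1, -⟩ := hj2
    obtain ⟨z2, hz2, -⟩ := hj3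
    exact ctr_spec (hR (T j) hj1 (hr1 j) (hr2 j) ⟨z2, hz2⟩ ⟨z1, hz1⟩)
  obtain ⟨φ, x', l', hφ, -, -, hl', hG⟩ := exists_limit hK hL hTS hhom ⟨z, hz⟩ ⟨q, hqL⟩
  exact ⟨T ∘ φ, x', l', hTS.comp hφ, Lim_comp hφ huL, hl', hG⟩

omit [FiniteDimensional ℝ E] in
/-- A direction of `interior (Dir L) ∩ S` which is not parallel to `x`. -/
theorem exists_q' {q : E} (hq : q ∈ interior (Dir L)) {S : Submodule ℝ E}
    (hS : Module.finrank ℝ S = 2) (hqS : q ∈ S) {x : E} (hx : x ≠ 0) (hxS : x ∈ S) :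
    ∃ q' ∈ interior (Dir L), q' ∈ S ∧ LinearIndependent ℝ ![x, q'] := by
  by_cases hli : LinearIndependent ℝ ![x, q]
  · exact ⟨q, hq, hqS, hli⟩
  obtain ⟨c, hc, hxq⟩ := exists_smul_of_not_li hli hx (interior_subset hq).1
  obtain ⟨v, hvS, hliv, -⟩ := exists_span_pair hS hxS hx
  have hcont : ContinuousAt (fun ε : ℝ => q + ε • v) 0 := by fun_prop
  have hev : ∀ᶠ ε : ℝ in 𝓝[>] 0, q + ε • v ∈ interior (Dir L) ∧ 0 < ε := by
    refine (Filter.Eventually.filter_mono nhdsWithin_le_nhds ?_).and self_mem_nhdsWithin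
    refine hcont.eventually_mem ?_
    simpa using isOpen_interior.mem_nhds hq
  obtain ⟨ε, hε1, hε2⟩ := hev.exists
  refine ⟨q + ε • v, hε1, S.add_mem hqS (S.smul_mem _ hvS), ?_⟩
  rw [li_pair_iff] at hliv ⊢
  intro s t hst
  have hqx : q = c⁻¹ • x := by rw [hxq, smul_smul, inv_mul_cancel₀ hc, one_smul]
  rw [hqx] at hst
  have h1 : (s + t * c⁻¹) • x + (t * ε) • v = 0 := by rw [← hst]; module
  obtain ⟨h2, h3⟩ := hliv _ _ h1
  have h4 : t = 0 := (mul_eq_zero.1 h3).resolve_right hε2.ne'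
  rw [h4, zero_mul, add_zero] at h2
  exact ⟨h2, h4⟩

omit [FiniteDimensional ℝ E] in
/-- Directions of `K` next to `x`. -/
theorem arc_x (hL : StarB L) {S : Submodule ℝ E} {D₁ D₂ : Set E} {x : E}
    {l : ℝ} (hG : GHom K L S D₁ D₂ x l) {q' : E} (hq' : q' ∈ D₂)
    (hli : LinearIndependent ℝ ![x, q']) :
    ∃ τ₀ : ℝ, 0 < τ₀ ∧ ∀ τ : ℝ, 0 < τ → τ < τ₀ → x + τ • q' ∈ K ∧ x + τ • q' ∈ D₁ := by
  obtain ⟨hq'L, hq'S⟩ := hG.sub₂ hq'
  obtain ⟨η₀, hη₀, hηL⟩ := hq'L.2
  have hl := hG.pos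
  refine ⟨l * η₀, by positivity, fun τ hτ hτ' => ?_⟩
  have h1 : (τ / l) • q' ∈ L := by
    have h2 := hL.star _ hηL (τ / l / η₀) (by positivity) (by
      rw [div_div, div_le_one (by positivity)]; exact hτ'.le)
    rwa [smul_smul, div_mul_cancel₀ _ hη₀.ne'] at h2
  have h2 : (τ / l) • q' ∈ D₂ := hG.cone₂ _ hq' _ (by positivity)
  have h3 := (hG.iff _ (S.smul_mem (τ / l) hq'S)).2 (Or.inr ⟨h1, h2⟩)
  have h4 : l • (τ / l) • q' = τ • q' := by rw [smul_smul, mul_div_cancel₀ _ hl.ne']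
  rw [h4] at h3
  have h5 : x + τ • q' ≠ 0 := by
    have := li_coord hli (s := 1) hτ.ne'
    rwa [one_smul] at this
  exact h3.resolve_left h5

/-- **W4.** -/
theorem regPlane : RegPlaneStmt := by
  intro E _ _ _ K L hK hL hR q hq hqK S hS hqS hKne
  -- regularity for `K`
  have hregK : Reg K S := by
    rintro u₀ ⟨hu₀, hu₀S⟩
    obtain ⟨T, x, l, hTS, huT, hl, hG⟩ := exists_gHom hK hL hR hq hS hqS hK hu₀ hu₀S
      (fun T _ h => ⟨u₀, h⟩)
    have hq2 : q ∈ Lim L T S := interior_sub_Lim hTS ⟨hq, hqS⟩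
    have hq1 : q ∉ Lim K T S := fun h1 => hqK h1.1
    have hx0 : x ≠ 0 := hG.ne_zero hK hL hq2 hq1
    have hx1 : -x ∉ Lim K T S := hG.neg_notMem hK hL hq2 hq1
    have hxD : x ∈ Lim K T S := (hG.x_mem hx0).2
    by_cases hli : LinearIndependent ℝ ![u₀, x]
    · refine closure_arc (M := K) one_pos (fun b hb hab h => nbaK hK hL hR hq hqK hS hqS hu₀S hb hab h)
        hu₀S hG.mem hli ?_
      intro τ hτ _
      have hne : u₀ + τ • x ≠ 0 := by
        have := li_coord hli (s := 1) hτ.ne'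
        rwa [one_smul] at this
      exact (hG.add_mem hK hL huT hτ.le hne).1
    · obtain ⟨c, hc, hcu⟩ := exists_smul_of_not_li hli hu₀.1 hx0
      have hcpos : 0 < c := by
        rcases lt_or_gt_of_ne hc with h1 | h1
        · exfalso
          apply hx1
          have h2 := Lim_smul huT (inv_pos.2 (neg_pos.2 h1))
          rw [hcu, smul_smul] at h2
          have h3 : (-c)⁻¹ * c = -1 := by
            have : c ≠ 0 := hc
            field_simp
          rwa [h3, neg_one_smul] at h2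
        · exact h1
      obtain ⟨q', hq', hq'S, hliq⟩ := exists_q' hq hS hqS hx0 hG.mem
      have hq'2 : q' ∈ Lim L T S := interior_sub_Lim hTS ⟨hq', hq'S⟩
      obtain ⟨τ₀, hτ₀, hτ⟩ := arc_x hL hG hq'2 hliq
      have h1 : x ∈ closure (interior (Dir K) ∩ (S : Set E)) :=
        closure_arc (M := K) hτ₀
          (fun b hb hab h => nbaK hK hL hR hq hqK hS hqS hG.mem hb hab h)
          hG.mem hq'S hliq (fun τ h1 h2 => ((hτ τ h1 h2).2).1)
      rw [hcu]
      exact closure_smul_mem hcpos h1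
  have hne : (interior (Dir K) ∩ (S : Set E)).Nonempty := by
    obtain ⟨u₀, hu₀⟩ := hKne
    exact closure_nonempty_iff.1 ⟨u₀, hregK hu₀⟩
  refine ⟨hregK, ?_, hne⟩
  -- regularity for `L`
  rintro u₀ ⟨hu₀, hu₀S⟩
  obtain ⟨T, x, l, hTS, huT, hl, hG⟩ := exists_gHom hK hL hR hq hS hqS hL hu₀ hu₀S
    (fun T hT _ => hne.mono (interior_sub_Lim hT))
  have hq2 : q ∈ Lim L T S := interior_sub_Lim hTS ⟨hq, hqS⟩
  have hq1 : q ∉ Lim K T S := fun h1 => hqK h1.1
  have hx0 : x ≠ 0 := hG.ne_zero hK hL hq2 hq1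
  have hxD : x ∈ Lim K T S := (hG.x_mem hx0).2
  have hxD' : -x ∈ Lim L T S := (hG.neg_mem hx0).2
  have hA : ∀ v ∈ Lim L T S, LinearIndependent ℝ ![v, x] →
      v ∈ closure (interior (Dir L) ∩ (S : Set E)) := by
    intro v hv hli
    have hli' : LinearIndependent ℝ ![v, -x] := by
      rw [li_pair_iff] at hli ⊢
      intro s t hst
      have h1 : s • v + (-t) • x = 0 := by rw [← hst]; module
      obtain ⟨h2, h3⟩ := hli _ _ h1
      exact ⟨h2, by linarith⟩
    refine closure_arc (M := L) one_pos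
      (fun b hb hab h => nbaL' hK hL hR hq hqK hS hqS hne hregK hv.2.1 hb hab h)
      hv.2.1 (S.neg_mem hG.mem) hli' ?_
    intro τ hτ _
    have h1 : v + τ • -x = v - τ • x := by rw [smul_neg, sub_eq_add_neg]
    have hne' : v - τ • x ≠ 0 := by
      rw [← h1]
      have := li_coord hli' (s := 1) hτ.ne'
      rwa [one_smul] at this
    rw [h1]
    exact (hG.sub_mem hK hL hv hτ.le hne').1
  by_cases hli : LinearIndependent ℝ ![u₀, x]
  · exact hA u₀ huT hli
  obtain ⟨c, hc, hcu⟩ := exists_smul_of_not_li hli hu₀.1 hx0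
  rcases lt_or_gt_of_ne hc with hneg | hpos
  · by_cases hliq : LinearIndependent ℝ ![-x, q]
    · have h1 : -x ∈ closure (interior (Dir L) ∩ (S : Set E)) := by
        refine closure_arc (M := L) one_pos
          (fun b hb hab h => nbaL' hK hL hR hq hqK hS hqS hne hregK (S.neg_mem hG.mem) hb hab h)
          (S.neg_mem hG.mem) hqS hliq ?_
        intro τ hτ _
        have h2 : -x + τ • q = τ • (q - τ⁻¹ • x) := by
          rw [smul_sub, smul_smul, mul_inv_cancel₀ hτ.ne', one_smul]; abel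
        have h3 : -x + τ • q ≠ 0 := by
          have := li_coord hliq (s := 1) hτ.ne'
          rwa [one_smul] at this
        have h4 : q - τ⁻¹ • x ≠ 0 := by
          intro h0
          rw [h2, h0, smul_zero] at h3
          exact h3 rfl
        rw [h2]
        exact (smul_mem_Dir hτ).2 (hG.sub_mem hK hL hq2 (inv_pos.2 hτ).le h4).1
      have h2 : u₀ = (-c) • (-x) := by rw [hcu]; module
      rw [h2]
      exact closure_smul_mem (by linarith) h1
    · obtain ⟨d, hd, hdx⟩ := exists_smul_of_not_li hliq (neg_ne_zero.2 hx0)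
        (interior_subset hq).1
      have hdpos : 0 < d := by
        rcases lt_or_gt_of_ne hd with h1 | h1
        · exfalso
          apply hq1
          have h2 : q = (-d)⁻¹ • x := by
            have h3 : x = (-d) • q := by
              rw [neg_smul, ← hdx, neg_neg]
            rw [h3, smul_smul, inv_mul_cancel₀ (neg_ne_zero.2 hd), one_smul]
          rw [h2]
          exact Lim_smul hxD (inv_pos.2 (neg_pos.2 h1))
        · exact h1
      apply subset_closure
      refine ⟨?_, hu₀S⟩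
      have h2 : u₀ = (-c * d) • q := by
        rw [hcu, mul_smul, ← hdx]; module
      rw [h2]
      exact (smul_mem_interior_Dir (mul_pos (by linarith) hdpos)).2 hq
  · -- the last case: `x` is a direction of `L`
    have hxL : x ∈ Lim L T S := by
      have h1 := Lim_smul huT (inv_pos.2 hpos)
      rwa [hcu, smul_smul, inv_mul_cancel₀ hc, one_smul] at h1
    obtain ⟨ε₀, hε₀, hεL⟩ := hxL.1.2
    have h1 := (hG.iff _ (S.smul_mem ε₀ hG.mem)).2 (Or.inr ⟨hεL, Lim_smul hxL hε₀⟩)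
    have h2 : x + l • ε₀ • x = (1 + l * ε₀) • x := by module
    have hp1 : 0 < 1 + l * ε₀ := by positivity
    rw [h2] at h1
    have h3 := (h1.resolve_left (smul_ne_zero hp1.ne' hx0)).1
    rw [hK.smul_mem hx0 hp1.le] at h3
    obtain ⟨q', hq', hq'S, hliq⟩ := exists_q' hq hS hqS hx0 hG.mem
    have hq'2 : q' ∈ Lim L T S := interior_sub_Lim hTS ⟨hq', hq'S⟩
    obtain ⟨τ₀, hτ₀, hτ⟩ := arc_x hL hG hq'2 hliq
    set η : ℝ := l * ε₀ / 2 with hη
    have hηpos : 0 < η := by positivity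
    have hlt : 1 + η < rad K x := by
      have : 0 < l * ε₀ := by positivity
      have : 1 + η < 1 + l * ε₀ := by rw [hη]; linarith
      linarith
    have hev0 : ∀ᶠ τ : ℝ in 𝓝[>] 0, 0 < τ ∧ τ < τ₀ := Ioo_mem_nhdsGT hτ₀
    have hrad : Tendsto (fun τ : ℝ => rad K (x + τ • q')) (𝓝[>] 0) (𝓝 (rad K x)) := by
      refine hK.tendsto_rad ?_ hxD.1 ?_
      · filter_upwards [hev0] with τ hτ'
        exact ((hτ τ hτ'.1 hτ'.2).2).1
      · have : ContinuousAt (fun τ : ℝ => x + τ • q') 0 := by fun_prop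
        have h4 := this.tendsto
        simp only [zero_smul, add_zero] at h4
        exact h4.mono_left nhdsWithin_le_nhds
    have hcl : ∀ᶠ τ : ℝ in 𝓝[>] 0, l⁻¹ • ((1 + η) • (x + τ • q') - x) ∈
        closure (interior (Dir L) ∩ (S : Set E)) := by
      filter_upwards [hev0, hrad.eventually_const_lt hlt] with τ hτ' hτr
      obtain ⟨hτK, hτD⟩ := hτ τ hτ'.1 hτ'.2
      have h4 : (1 + η) • (x + τ • q') ∈ K :=
        (hK.smul_mem hτD.1.1 (by positivity)).2 hτr.le
      have h5 : (1 + η) • (x + τ • q') ∈ Lim K T S := Lim_smul hτD (by positivity)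
      set p : E := l⁻¹ • ((1 + η) • (x + τ • q') - x) with hp
      have hlp : l • p = (1 + η) • (x + τ • q') - x := by
        rw [hp, smul_smul, mul_inv_cancel₀ hl.ne', one_smul]
      have hpS : p ∈ S := S.smul_mem _ (S.sub_mem (S.smul_mem _ (S.add_mem hG.mem
        (S.smul_mem _ hq'S))) hG.mem)
      have h6 := (hG.iff p hpS).1 (Or.inr (by rw [hlp, add_sub_cancel]; exact ⟨h4, h5⟩))
      have hpc : p = (l⁻¹ * η) • x + (l⁻¹ * (1 + η) * τ) • q' := by rw [hp]; module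
      have hτpos := hτ'.1
      have hcoef : l⁻¹ * (1 + η) * τ ≠ 0 := by positivity
      have hp0 : p ≠ 0 := by rw [hpc]; exact li_coord hliq hcoef
      have hpD := (h6.resolve_left hp0).2
      apply hA p hpD
      rw [li_pair_iff] at hliq ⊢
      intro s t hst
      rw [hpc] at hst
      have h7 : (s * (l⁻¹ * η) + t) • x + (s * (l⁻¹ * (1 + η) * τ)) • q' = 0 := by
        rw [← hst]; module
      obtain ⟨h8, h9⟩ := hliq _ _ h7
      have h10 : s = 0 := (mul_eq_zero.1 h9).resolve_right hcoef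
      rw [h10, zero_mul, zero_add] at h8
      exact ⟨h10, h8⟩
    have hlim : Tendsto (fun τ : ℝ => l⁻¹ • ((1 + η) • (x + τ • q') - x)) (𝓝[>] 0)
        (𝓝 (l⁻¹ • ((1 + η) • (x + (0 : ℝ) • q') - x))) := by
      have : ContinuousAt (fun τ : ℝ => l⁻¹ • ((1 + η) • (x + τ • q') - x)) 0 := by fun_prop
      exact this.tendsto.mono_left nhdsWithin_le_nhds
    have h4 := isClosed_closure.mem_of_tendsto hlim hcl
    have h5 : u₀ = (c * (l⁻¹ * η)⁻¹) • (l⁻¹ • ((1 + η) • (x + (0 : ℝ) • q') - x)) := by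
      have h6 : l⁻¹ • ((1 + η) • (x + (0 : ℝ) • q') - x) = (l⁻¹ * η) • x := by module
      rw [h6, smul_smul, mul_assoc, inv_mul_cancel₀ (by positivity), mul_one]
      exact hcu
    rw [h5]
    exact closure_smul_mem (by positivity) h4

end Main

end Pool.Agent.H11.SB
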