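import Pool.Agent.H11.SB.W4

/-!
# MP_bd4439_gt, module W5: the opposite point is a direction of `K`
-/

namespace Pool.Agent.H11.SB

open Set Filter Topology Pool.Agent.H63.SB
open scoped RealInnerProductSpace

variable {E : Type} [NormedAddCommGroup E] [InnerProductSpace ℝ E] [FiniteDimensional ℝ E]
variable {K L : Set E}

/-- A limit homothety at every subspace which meets both interiors. -/
theorem exists_gHom_sub (hK : StarB K) (hL : StarB L) {m : ℕ} (hR : RegHom K L m)
    {S : Submodule ℝ E} (hS : Module.finrank ℝ S = m)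
    (hKn : (interior (Dir K) ∩ (S : Set E)).Nonempty)
    (hLn : (interior (Dir L) ∩ (S : Set E)).Nonempty) :
    ∃ (T : ℕ → Submodule ℝ E) (x : E) (l : ℝ), PConv T S ∧
      GHom K L S (Lim K T S) (Lim L T S) x l := by
  let b := Module.finBasisOfFinrankEq ℝ S hS
  set b₀ : Fin m → E := fun i => (b i : E) with hb₀
  have hli : LinearIndependent ℝ b₀ := b.linearIndependent.map' S.subtype S.ker_subtype
  have hspan : Submodule.span ℝ (range b₀) = S := by
    have h1 : range b₀ = S.subtype '' range b := by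
      rw [← range_comp]; rfl
    rw [h1, ← Submodule.map_span, b.span_eq, Submodule.map_subtype_top]
  set b₁ : Fin m → (⊤ : Submodule ℝ E) := fun i => ⟨b₀ i, trivial⟩ with hb₁
  have hstep : ∀ n : ℕ, ∃ c : Fin m → (⊤ : Submodule ℝ E), dist c b₁ < 1 / ((n : ℝ) + 1) ∧
      Reg K (Submodule.span ℝ (range fun i => (c i : E))) ∧
      Reg L (Submodule.span ℝ (range fun i => (c i : E))) := by
    intro n
    have hpos : 0 < 1 / ((n : ℝ) + 1) := by positivity
    obtain ⟨c, hc, h1, h2⟩ := exists_reg hK hL (reg_top hK) (reg_top hL) m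
      (O := Metric.ball b₁ (1 / ((n : ℝ) + 1))) Metric.isOpen_ball
      ⟨b₁, Metric.mem_ball_self hpos⟩
    exact ⟨c, hc, h1, h2⟩
  choose c hc1 hc2 hc3 using hstep
  have hcl : Tendsto c atTop (𝓝 b₁) := by
    rw [tendsto_iff_dist_tendsto_zero]
    exact squeeze_zero (fun j => dist_nonneg) (fun j => (hc1 j).le)
      tendsto_one_div_add_atTop_nhds_zero_nat
  have hcl' : Tendsto (fun n => fun i => (c n i : E)) atTop (𝓝 b₀) := by
    rw [tendsto_pi_nhds]
    intro i
    exact (continuous_subtype_val.tendsto _).comp ((tendsto_pi_nhds.1 hcl) i)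
  set T : ℕ → Submodule ℝ E := fun n => Submodule.span ℝ (range fun i => (c n i : E)) with hT
  have hTS : PConv T S := by
    have := pconv_span hcl' hli
    rwa [hspan] at this
  have hdim : ∀ᶠ n in atTop, Module.finrank ℝ (T n) = m := by
    have := hcl'.eventually (isOpen_setOfPred_linearIndependent.mem_nhds hli)
    filter_upwards [this] with n hn
    have h1 := finrank_span_eq_card hn
    simpa using h1
  obtain ⟨p, hp⟩ := hKn
  obtain ⟨q, hq⟩ := hLn
  have hp1 : p ∈ Lim K T S := interior_sub_Lim hTS hp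
  have hq1 : q ∈ Lim L T S := interior_sub_Lim hTS hq
  have hhom : ∀ᶠ j in atTop, Hom K L (T j) (ctr K L (T j)) (rat K L (T j)) := by
    filter_upwards [hdim, hp1.2.2 1 one_pos, hq1.2.2 1 one_pos] with j hj1 hj2 hj3
    obtain ⟨z1, hz1, -⟩ := hj2
    obtain ⟨z2, hz2, -⟩ := hj3
    exact ctr_spec (hR (T j) hj1 (hc2 j) (hc3 j) ⟨z1, hz1⟩ ⟨z2, hz2⟩)
  obtain ⟨φ, x', l', hφ, -, -, hl', hG⟩ := exists_limit hK hL hTS hhom ⟨p, hp1⟩ ⟨q, hq1⟩
  exact ⟨T ∘ φ, x', l', hTS.comp hφ, hG⟩

/-- The interior directions lie on one side of `W`. -/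
theorem same_side (hK : StarB K) (hL : StarB L) {m : ℕ} (hR : RegHom K L m) {q : E}
    (hq : q ∈ interior (Dir L)) (hqK : q ∉ Dir K) {W : Submodule ℝ E} {v : E}
    (hdim : Module.finrank ℝ (W ⊔ Submodule.span ℝ {v} : Submodule ℝ E) = m)
    (hqW : q ∈ W) (hW : ∀ z ∈ Dir K, z ∉ W) {w w' : E} (hw : w ∈ W) (hw' : w' ∈ W) {t t' : ℝ}
    (ht : 0 < t) (ht' : t' < 0) (h : w + t • v ∈ interior (Dir K))
    (h' : w' + t' • v ∈ interior (Dir K)) : False := by
  have hvS : v ∈ W ⊔ Submodule.span ℝ {v} :=
    Submodule.mem_sup_right (Submodule.mem_span_singleton_self v)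
  have hWS : W ≤ W ⊔ Submodule.span ℝ {v} := le_sup_left
  have hpS : ∀ {y : E} {s : ℝ}, y ∈ W → y + s • v ∈ W ⊔ Submodule.span ℝ {v} := fun hy =>
    Submodule.add_mem _ (hWS hy) (Submodule.smul_mem _ _ hvS)
  obtain ⟨T, x, l, hT, hG⟩ := exists_gHom_sub hK hL hR hdim ⟨_, h, hpS hw⟩ ⟨q, hq, hWS hqW⟩
  have hq2 : q ∈ Lim L T (W ⊔ Submodule.span ℝ {v}) := interior_sub_Lim hT ⟨hq, hWS hqW⟩
  have hq1 : q ∉ Lim K T (W ⊔ Submodule.span ℝ {v}) := fun h1 => hqK h1.1
  have hx0 : x ≠ 0 := hG.ne_zero hK hL hq2 hq1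
  have hx1 : -x ∉ Lim K T (W ⊔ Submodule.span ℝ {v}) := hG.neg_notMem hK hL hq2 hq1
  have hxD : x ∈ Lim K T (W ⊔ Submodule.span ℝ {v}) := (hG.x_mem hx0).2
  have hxW : x ∉ W := hW x hxD.1
  obtain ⟨y, hy, u, hu, hyu⟩ := Submodule.mem_sup.1 hG.mem
  obtain ⟨s, rfl⟩ := Submodule.mem_span_singleton.1 hu
  have hs : s ≠ 0 := by
    intro h0
    apply hxW
    rw [← hyu, h0, zero_smul, add_zero]
    exact hy
  have key : ∀ (y' : E) (s' : ℝ), y' ∈ W → s' / s < 0 → y' + s' • v ∈ interior (Dir K) →
      False := by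
    intro y' s' hy' hss hmem
    have hp1 : y' + s' • v ∈ Lim K T (W ⊔ Submodule.span ℝ {v}) :=
      interior_sub_Lim hT ⟨hmem, hpS hy'⟩
    have hτ : 0 < -(s' / s) := by linarith
    have hval : y' + s' • v + (-(s' / s)) • x = y' + (-(s' / s)) • y := by
      rw [← hyu, smul_add, smul_smul]
      have : -(s' / s) * s = -s' := by field_simp
      rw [this]
      module
    by_cases h0 : y' + s' • v + (-(s' / s)) • x = 0
    · apply hx1
      have h1 : -x = (-(s' / s))⁻¹ • (y' + s' • v) := by
        have h2 : y' + s' • v = (-(s' / s)) • (-x) := by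
          rw [smul_neg]
          exact eq_neg_of_add_eq_zero_left h0
        rw [h2, smul_smul, inv_mul_cancel₀ hτ.ne', one_smul]
      rw [h1]
      exact Lim_smul hp1 (inv_pos.2 hτ)
    · have h1 := hG.add_mem hK hL hp1 hτ.le h0
      refine hW _ h1.1 ?_
      rw [hval]
      exact W.add_mem hy' (W.smul_mem _ hy)
  rcases lt_or_gt_of_ne hs with hs' | hs'
  · exact key w t hw (div_neg_of_pos_of_neg ht hs') h
  · exact key w' t' hw' (div_neg_of_neg_of_pos ht' hs') h'

/-- Two vectors independent modulo `W`. -/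
theorem exists_ef {W : Submodule ℝ E} (hW : Module.finrank ℝ W + 2 ≤ Module.finrank ℝ E) :
    ∃ e f : E, ∀ s t : ℝ, s • e + t • f ∈ W → s = 0 ∧ t = 0 := by
  have h1 : 2 ≤ Module.finrank ℝ Wᗮ := by
    have := W.finrank_add_finrank_orthogonal
    omega
  obtain ⟨g, hg⟩ := exists_linearIndependent_of_le_finrank h1
  refine ⟨(g 0 : E), (g 1 : E), fun s t hst => ?_⟩
  have h2 : s • (g 0 : E) + t • (g 1 : E) ∈ Wᗮ :=
    Submodule.add_mem _ (Submodule.smul_mem _ _ (g 0).2) (Submodule.smul_mem _ _ (g 1).2)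
  have h3 : s • (g 0 : E) + t • (g 1 : E) = 0 := by
    have := Submodule.inf_orthogonal_eq_bot W
    have h4 : s • (g 0 : E) + t • (g 1 : E) ∈ W ⊓ Wᗮ := ⟨hst, h2⟩
    rw [this] at h4
    exact (Submodule.mem_bot ℝ).1 h4
  have h4 : s • g 0 + t • g 1 = 0 := by
    apply Subtype.ext
    simpa using h3
  have h5 : LinearIndependent ℝ ![g 0, g 1] := by
    convert hg using 1
    funext i
    fin_cases i <;> rfl
  exact LinearIndependent.pair_iff.1 h5 s t h4

theorem finrank_sup_span {W : Submodule ℝ E} {v : E} (hv : v ∉ W) :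
    Module.finrank ℝ (W ⊔ Submodule.span ℝ {v} : Submodule ℝ E) = Module.finrank ℝ W + 1 := by
  have hv0 : v ≠ 0 := fun h => hv (h ▸ W.zero_mem)
  have h1 := Submodule.finrank_sup_add_finrank_inf_eq W (Submodule.span ℝ {v})
  have h2 : W ⊓ Submodule.span ℝ {v} = ⊥ := by
    rw [Submodule.eq_bot_iff]
    rintro z ⟨hz1, hz2⟩
    obtain ⟨t, rfl⟩ := Submodule.mem_span_singleton.1 hz2
    by_cases ht : t = 0
    · rw [ht, zero_smul]
    · exfalso
      apply hv
      have := W.smul_mem t⁻¹ hz1
      rwa [smul_smul, inv_mul_cancel₀ ht, one_smul] at this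
  rw [h2, finrank_bot, finrank_span_singleton hv0] at h1
  omega

/-- **W5.** -/
theorem opp : OppStmt := by
  intro E _ _ _ K L k hK hL hk hkE hA hR q hq hqK
  have hq0 : q ≠ 0 := (interior_subset hq).1
  have hN : ∀ i : ℕ, ∀ j : ℕ, j + i = k → 1 ≤ j → ∀ S : Submodule ℝ E,
      Module.finrank ℝ S = j → q ∈ S → (Dir K ∩ (S : Set E)).Nonempty := by
    intro i
    induction i with
    | zero =>
      intro j hj hj1 S hS hqS
      rw [add_zero] at hj
      subst hj
      obtain ⟨x, l, h⟩ := hA S hS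
      have hG := h.gHom hK hL
      have hx0 : x ≠ 0 := hG.ne_zero hK hL (q := q) ⟨interior_subset hq, hqS⟩ (fun h1 => hqK h1.1)
      exact ⟨x, (hG.x_mem hx0).2⟩
    | succ i ih =>
      intro j hj hj1 W hW hqW
      by_contra hcon
      rw [not_nonempty_iff_eq_empty] at hcon
      have hWK : ∀ z ∈ Dir K, z ∉ W := fun z hz hz' => by
        have : z ∈ Dir K ∩ (W : Set E) := ⟨hz, hz'⟩
        rw [hcon] at this
        exact this
      -- the `(j+1)`-dimensional subspaces meet the interior
      have hI : ∀ S : Submodule ℝ E, Module.finrank ℝ S = j + 1 → q ∈ S →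
          (interior (Dir K) ∩ (S : Set E)).Nonempty := by
        intro S hS hqS
        obtain ⟨u, hu, huS⟩ := ih (j + 1) (by omega) (by omega) S hS hqS
        obtain ⟨P, hP, hqP, hPS, hne⟩ : ∃ P : Submodule ℝ E, Module.finrank ℝ P = 2 ∧ q ∈ P ∧
            P ≤ S ∧ (Dir K ∩ (P : Set E)).Nonempty := by
          by_cases hli : LinearIndependent ℝ ![q, u]
          · refine ⟨Submodule.span ℝ {q, u}, finrank_span_pair hli,
              Submodule.subset_span (by simp), ?_, ⟨u, hu, Submodule.subset_span (by simp)⟩⟩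
            rw [Submodule.span_le]
            rintro z (rfl | rfl)
            · exact hqS
            · exact huS
          · obtain ⟨c, hc, hqu⟩ := exists_smul_of_not_li hli hq0 hu.1
            have huq : u = c⁻¹ • q := by rw [hqu, smul_smul, inv_mul_cancel₀ hc, one_smul]
            have hlt : Submodule.span ℝ {q} < S := by
              refine lt_of_le_of_ne ((Submodule.span_singleton_le_iff_mem _ _).2 hqS) ?_
              intro h
              have := finrank_span_singleton (K := ℝ) hq0
              rw [h, hS] at this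
              omega
            obtain ⟨v, hvS, hv⟩ := SetLike.exists_of_lt hlt
            have hliv : LinearIndependent ℝ ![q, v] := by
              rw [LinearIndependent.pair_iff' hq0]
              intro a ha
              exact hv (ha ▸ Submodule.smul_mem _ _ (Submodule.mem_span_singleton_self q))
            have hqP : q ∈ Submodule.span ℝ {q, v} := Submodule.subset_span (by simp)
            refine ⟨Submodule.span ℝ {q, v}, finrank_span_pair hliv, hqP, ?_, ⟨u, hu, ?_⟩⟩
            · rw [Submodule.span_le]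
              rintro z (rfl | rfl)
              · exact hqS
              · exact hvS
            · rw [huq]
              exact Submodule.smul_mem _ _ hqP
        obtain ⟨-, -, p, hp, hpP⟩ := regPlane E K L hK hL (hR 2 le_rfl hk) q hq hqK P hP hqP hne
        exact ⟨p, hp, hPS hpP⟩
      obtain ⟨e, f, hef⟩ := exists_ef (W := W) (by omega)
      set v : ℝ → E := fun θ => Real.cos θ • e + Real.sin θ • f with hvdef
      have hvW : ∀ θ, v θ ∉ W := by
        intro θ hθ
        obtain ⟨h1, h2⟩ := hef _ _ hθ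
        have := Real.cos_sq_add_sin_sq θ
        rw [h1, h2] at this
        norm_num at this
      have hvpi : ∀ θ, v (θ + Real.pi) = -v θ := by
        intro θ
        simp only [hvdef, Real.cos_add_pi, Real.sin_add_pi]
        module
      have hvc : Continuous v := by
        simp only [hvdef]
        fun_prop
      set Θ : Set ℝ := {θ | ∃ w ∈ W, ∃ t : ℝ, 0 < t ∧ w + t • v θ ∈ interior (Dir K)} with hΘ
      have hΘo : IsOpen Θ := by
        have h1 : Θ = ⋃ (w : W) (t : {t : ℝ // 0 < t}),
            {θ : ℝ | (w : E) + (t : ℝ) • v θ ∈ interior (Dir K)} := by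
          ext θ
          simp only [hΘ, mem_ofPred_eq, mem_iUnion]
          constructor
          · rintro ⟨w, hw, t, ht, h⟩
            exact ⟨⟨w, hw⟩, ⟨t, ht⟩, h⟩
          · rintro ⟨w, t, h⟩
            exact ⟨w, w.2, t, t.2, h⟩
        rw [h1]
        refine isOpen_iUnion fun w => isOpen_iUnion fun t => ?_
        have h2 : Continuous fun θ : ℝ => (w : E) + (t : ℝ) • v θ := by fun_prop
        exact isOpen_interior.preimage h2
      have hΘ1 : ∀ θ, θ ∈ Θ ∨ θ + Real.pi ∈ Θ := by
        intro θ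
        have hd : Module.finrank ℝ (W ⊔ Submodule.span ℝ {v θ} : Submodule ℝ E) = j + 1 := by
          rw [finrank_sup_span (hvW θ), hW]
        obtain ⟨p, hp, hpS⟩ := hI _ hd (le_sup_left (a := W) hqW)
        obtain ⟨w, hw, u, hu, hwu⟩ := Submodule.mem_sup.1 hpS
        obtain ⟨t, rfl⟩ := Submodule.mem_span_singleton.1 hu
        rcases lt_trichotomy t 0 with ht | ht | ht
        · right
          refine ⟨w, hw, -t, by linarith, ?_⟩
          rw [hvpi, smul_neg, neg_smul, neg_neg, hwu]
          exact hp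
        · exfalso
          rw [ht, zero_smul, add_zero] at hwu
          exact hWK p (interior_subset hp) (hwu ▸ hw)
        · left
          exact ⟨w, hw, t, ht, by rw [hwu]; exact hp⟩
      have hΘ2 : ∀ θ, θ ∈ Θ → θ + Real.pi ∈ Θ → False := by
        rintro θ ⟨w, hw, t, ht, h⟩ ⟨w', hw', t', ht', h'⟩
        have hd : Module.finrank ℝ (W ⊔ Submodule.span ℝ {v θ} : Submodule ℝ E) = j + 1 := by
          rw [finrank_sup_span (hvW θ), hW]
        rw [hvpi, smul_neg, ← neg_smul] at h'
        exact same_side hK hL (hR (j + 1) (by omega) (by omega)) hq hqK hd hqW hWK hw hw' ht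
          (by linarith : -t' < 0) h h'
      have hcl : IsClopen Θ := by
        refine ⟨⟨?_⟩, hΘo⟩
        have h1 : Θᶜ = (fun θ : ℝ => θ + Real.pi) ⁻¹' Θ := by
          ext θ
          constructor
          · intro h
            exact (hΘ1 θ).resolve_left h
          · intro h h2
            exact hΘ2 θ h2 h
        rw [h1]
        exact hΘo.preimage (by fun_prop)
      rcases isClopen_iff.1 hcl with h | h
      · rcases hΘ1 0 with h1 | h1
        · rw [h] at h1; exact h1
        · rw [h] at h1; exact h1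
      · exact hΘ2 0 (by rw [h]; trivial) (by rw [h]; trivial)
  obtain ⟨u, hu, huS⟩ := hN (k - 1) 1 (by omega) le_rfl (Submodule.span ℝ {q})
    (finrank_span_singleton hq0) (Submodule.mem_span_singleton_self q)
  obtain ⟨t, rfl⟩ := Submodule.mem_span_singleton.1 huS
  rcases lt_trichotomy t 0 with ht | ht | ht
  · have h1 : t • q = (-t) • (-q) := by module
    rw [h1] at hu
    exact (smul_mem_Dir (by linarith)).1 hu
  · exfalso
    rw [ht, zero_smul] at hu
    exact hu.1 rfl
  · exact absurd ((smul_mem_Dir ht).1 hu) hqK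

end Pool.Agent.H11.SB
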